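import Pool.Agent.Q282.TW.Per

/-!
# The average of the order over a set of polynomials
-/

set_option autoImplicit false
set_option linter.unusedSectionVars false

namespace Q282TW

open Polynomial Finset
open Pool.Agent.TH180.RT (Pd mem_Pd card_Pd_real fejer_bound)

lemma cnt_even (M : ℕ) : ∑ m ∈ Ico 1 (M + 1), (if 2 ∣ m then (1 : ℝ) else 0) = ((M / 2 : ℕ) : ℝ) := by
  induction M with
  | zero => simp
  | succ M ih =>
    rw [sum_Ico_succ_top (by omega), ih]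
    by_cases h : 2 ∣ M + 1
    · rw [if_pos h]
      have : (M + 1) / 2 = M / 2 + 1 := by omega
      rw [this]
      push_cast
      rfl
    · rw [if_neg h]
      have : (M + 1) / 2 = M / 2 := by omega
      rw [this, add_zero]

lemma sum_even (M : ℕ) : ∑ m ∈ Ico 1 M, ((M : ℝ) - m) * (if 2 ∣ m then (1 : ℝ) else 0) ≤ (M : ℝ) ^ 2 / 4 := by
  induction M with
  | zero => simp
  | succ M ih =>
    rcases Nat.eq_zero_or_pos M with h0 | h0
    · rw [h0]
      norm_num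
    · have e1 : ∑ m ∈ Ico 1 (M + 1), (((M + 1 : ℕ) : ℝ) - m) * (if 2 ∣ m then (1 : ℝ) else 0) =
          ∑ m ∈ Ico 1 (M + 1), ((M : ℝ) - m) * (if 2 ∣ m then (1 : ℝ) else 0) + ∑ m ∈ Ico 1 (M + 1), (if 2 ∣ m then (1 : ℝ) else 0) := by
        rw [← sum_add_distrib]
        refine sum_congr rfl fun m _ => ?_
        push_cast
        ring
      rw [e1, cnt_even, sum_Ico_succ_top h0, sub_self, zero_mul, add_zero]
      have h1 : ((M / 2 : ℕ) : ℝ) ≤ M / 2 := Nat.cast_div_le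
      push_cast
      nlinarith

lemma sum_lin (M : ℕ) : ∑ m ∈ Ico 1 M, ((M : ℝ) - m) ≤ (M : ℝ) ^ 2 / 2 := by
  induction M with
  | zero => simp
  | succ M ih =>
    rcases Nat.eq_zero_or_pos M with h0 | h0
    · rw [h0]
      norm_num
    · have e1 : ∑ m ∈ Ico 1 (M + 1), (((M + 1 : ℕ) : ℝ) - m) = ∑ m ∈ Ico 1 (M + 1), ((M : ℝ) - m) + ∑ m ∈ Ico 1 (M + 1), (1 : ℝ) := by
        rw [← sum_add_distrib]
        refine sum_congr rfl fun m _ => ?_
        push_cast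
        ring
      rw [e1, sum_Ico_succ_top h0, sub_self, add_zero, sum_const, Nat.card_Ico, Nat.add_sub_cancel, nsmul_eq_mul, mul_one]
      push_cast
      nlinarith

lemma geo_nine (M : ℕ) : ∑ m ∈ Ico 1 M, (9 / 10 : ℝ) ^ m ≤ 10 := by
  have h1 : ∑ m ∈ Ico 1 M, (9 / 10 : ℝ) ^ m ≤ ∑ m ∈ range M, (9 / 10 : ℝ) ^ m :=
    sum_le_sum_of_subset_of_nonneg (fun m hm => mem_range.2 (mem_Ico.1 hm).2) fun _ _ _ => by positivity
  refine h1.trans ?_
  rw [geom_sum_eq (by norm_num)]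
  have : (0 : ℝ) ≤ (9 / 10) ^ M := by positivity
  rw [div_le_iff_of_neg (by norm_num)]
  linarith

section

variable {k : Type} [Field k] [Fintype k] [DecidableEq k] {d : ℕ}

lemma er_sum (h2 : (2 : k) ≠ 0) (d κ m n : ℕ) :
    ∑ c : Fin n → k, er d κ m (mon c) ≤ (Fintype.card k : ℝ) ^ n * ((6 * d + d * κ + κ) * (9 / 10) ^ m) := by
  obtain ⟨s, hsdef⟩ : ∃ s : ℝ, s = Real.sqrt (Fintype.card k) := ⟨_, rfl⟩
  have hs1 : (3 / 2 : ℝ) ≤ s := hsdef ▸ sqrt_ge h2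
  have hs0 : 0 < s := by linarith
  have hss : s ^ 2 = Fintype.card k := hsdef ▸ sqrt_sq
  have hsi : s⁻¹ ≤ 2 / 3 := by
    rw [inv_le_comm₀ hs0 (by norm_num)]
    norm_num
    exact hs1
  have hpw : ∀ r, m ≤ 3 * r → (s ^ r)⁻¹ ≤ (9 / 10) ^ m := by
    intro r hr
    rw [← inv_pow]
    exact (pow_le_pow_left₀ (by positivity) hsi _).trans (nine m r hr)
  have hq : (0 : ℝ) < Fintype.card k := by
    rw [← hss]
    positivity
  have h1 : ∀ c : Fin n → k, er d κ m (mon c) ≤ (9 / 10) ^ m * (d + d * κ + d * ww m (mon c)) +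
      (9 / 10) ^ m * (κ + 2 * d * ww (m / 2) (mon c)) + 3 / 2 * d * (9 / 10) ^ m := by
    intro c
    unfold er
    rw [← hsdef]
    have hw1 := ww_nonneg m (mon c)
    have hw2 := ww_nonneg (m / 2) (mon c)
    refine add_le_add_left (add_le_add ?_ ?_) _
    · exact mul_le_mul_of_nonneg_right (hpw m (by omega)) (by positivity)
    · split_ifs with hev
      · have e1 := hpw (m / 2) (by omega)
        have e2 : ((Fintype.card k : ℝ) ^ (m / 2))⁻¹ ≤ (9 / 10) ^ m := by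
          rw [← hss, ← pow_mul]
          exact hpw _ (by omega)
        have e3 : (κ : ℝ) * (s ^ (m / 2))⁻¹ ≤ κ * (9 / 10) ^ m := mul_le_mul_of_nonneg_left e1 (Nat.cast_nonneg _)
        have e4 : 2 * (d : ℝ) * ww (m / 2) (mon c) * ((Fintype.card k : ℝ) ^ (m / 2))⁻¹ ≤ 2 * d * ww (m / 2) (mon c) * (9 / 10) ^ m :=
          mul_le_mul_of_nonneg_left e2 (by positivity)
        linarith
      · positivity
  refine (sum_le_sum fun c _ => h1 c).trans ?_
  have h3 := ww_sum h2 m n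
  have h4 := ww_sum h2 (m / 2) n
  have h5 : ∑ c : Fin n → k, ((9 / 10 : ℝ) ^ m * (d + d * κ + d * ww m (mon c)) +
      (9 / 10) ^ m * (κ + 2 * d * ww (m / 2) (mon c)) + 3 / 2 * d * (9 / 10) ^ m) =
      (9 / 10) ^ m * ((Fintype.card k : ℝ) ^ n * (d + d * κ + κ + 3 / 2 * d) + d * ∑ c : Fin n → k, ww m (mon c) +
        2 * d * ∑ c : Fin n → k, ww (m / 2) (mon c)) := by
    rw [mul_add, mul_add, mul_sum, mul_sum, mul_sum, mul_sum]
    have e0 : (9 / 10 : ℝ) ^ m * ((Fintype.card k : ℝ) ^ n * (d + d * κ + κ + 3 / 2 * d)) =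
        ∑ c : Fin n → k, (9 / 10 : ℝ) ^ m * (d + d * κ + κ + 3 / 2 * d) := by
      rw [sum_const, card_univ, Fintype.card_fun, Fintype.card_fin, nsmul_eq_mul]
      push_cast
      ring
    rw [e0, ← sum_add_distrib, ← sum_add_distrib]
    exact sum_congr rfl fun c _ => by ring
  rw [h5]
  have hd : (0 : ℝ) ≤ d := Nat.cast_nonneg _
  have hk : (0 : ℝ) ≤ κ := Nat.cast_nonneg _
  have hQ : (0 : ℝ) < (Fintype.card k : ℝ) ^ n := by positivity
  have h6 : (Fintype.card k : ℝ) ^ n * (d + d * κ + κ + 3 / 2 * d) + d * ∑ c : Fin n → k, ww m (mon c) +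
        2 * d * ∑ c : Fin n → k, ww (m / 2) (mon c) ≤ (Fintype.card k : ℝ) ^ n * (6 * d + d * κ + κ) := by
    have e1 := mul_le_mul_of_nonneg_left h3 hd
    have e2 := mul_le_mul_of_nonneg_left h4 (by positivity : (0 : ℝ) ≤ 2 * d)
    nlinarith
  calc _ ≤ (9 / 10 : ℝ) ^ m * ((Fintype.card k : ℝ) ^ n * (6 * d + d * κ + κ)) := mul_le_mul_of_nonneg_left h6 (by positivity)
    _ = _ := by ring

/-- **The average of the order.** -/
theorem avg (h2 : (2 : k) ≠ 0) {α : k[X] → Fin d → ℂ} (hα : ∀ P, Pr P → ∀ i, ‖α P i‖ ≤ 1)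
    {S : Finset k[X]} [DecidablePred fun P : k[X] => P ∉ S] {κ : ℕ}
    (hS : dg S ≤ κ) {ρ : ℝ} (hρ : 0 ≤ ρ) (hsec : Sec ρ κ α) {N : k[X] → ℕ} {β : (D : k[X]) → Fin (N D) → ℂ} {n : ℕ}
    (U : Finset (Fin n → k)) (hβ : ∀ c ∈ U, N (mon c) ≤ κ + d * n ∧ IsTwist α (mon c) (β (mon c)))
    {M : ℕ} (hM : 1 ≤ M) {E : ℝ} (hE0 : 0 ≤ E)
    (hE : ∀ m ∈ Ico 1 M, |∑ c ∈ U, (F α S m (mon c)).re| ≤ E * Real.sqrt (Fintype.card k) ^ m) :
    ∑ c ∈ U, (order (β (mon c)) : ℝ) ≤ U.card * ((κ + d * n) / M + ρ / 2) + E +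
      20 * (6 * d + d * κ + κ) * (Fintype.card k : ℝ) ^ n / M := by
  have hs0 : 0 < Real.sqrt (Fintype.card k) := by
    have := sqrt_ge h2
    linarith
  have hM0 : (0 : ℝ) < M := by exact_mod_cast hM
  -- for each polynomial
  have h1 : ∀ c ∈ U, (order (β (mon c)) : ℝ) * M ^ 2 ≤ M * (κ + d * n) + 2 * ∑ m ∈ Ico 1 M, ((M : ℝ) - m) *
      (-((Real.sqrt (Fintype.card k) ^ m)⁻¹ * (F α S m (mon c)).re) + (if 2 ∣ m then ρ else 0) + er d κ m (mon c)) := by
    intro c hc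
    obtain ⟨hN, ht⟩ := hβ c hc
    have h3 := fejer_bound ht.1 M
    have h4 : (order (β (mon c)) : ℝ) * M ^ 2 ≤ M * N (mon c) + 2 * ∑ m ∈ Ico 1 M, ((M : ℝ) - m) * (∑ i, β (mon c) i ^ m).re := h3
    refine h4.trans (add_le_add (mul_le_mul_of_nonneg_left ?_ hM0.le) (mul_le_mul_of_nonneg_left (sum_le_sum fun m hm => ?_) (by norm_num)))
    · exact_mod_cast hN
    · have hm1 := mem_Ico.1 hm
      refine mul_le_mul_of_nonneg_left (per h2 hα hS hsec ht m hm1.1) ?_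
      have : (m : ℝ) ≤ M := by exact_mod_cast hm1.2.le
      linarith
  have h5 : (∑ c ∈ U, (order (β (mon c)) : ℝ)) * M ^ 2 ≤ U.card * (M * (κ + d * n)) + 2 * ∑ m ∈ Ico 1 M, ((M : ℝ) - m) *
      (E + (U.card * ρ) * (if 2 ∣ m then (1 : ℝ) else 0) + (Fintype.card k : ℝ) ^ n * ((6 * d + d * κ + κ) * (9 / 10) ^ m)) := by
    rw [sum_mul]
    refine (sum_le_sum h1).trans ?_
    rw [sum_add_distrib, sum_const, nsmul_eq_mul, ← mul_sum]
    refine add_le_add_right (mul_le_mul_of_nonneg_left ?_ (by norm_num)) _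
    rw [sum_comm]
    refine sum_le_sum fun m hm => ?_
    rw [← mul_sum]
    have hm1 := mem_Ico.1 hm
    refine mul_le_mul_of_nonneg_left ?_ (by
      have : (m : ℝ) ≤ M := by exact_mod_cast hm1.2.le
      linarith)
    rw [sum_add_distrib, sum_add_distrib]
    refine add_le_add (add_le_add ?_ ?_) ?_
    · rw [sum_neg_distrib, ← mul_sum]
      have h6 := (abs_le.1 (hE m hm)).1
      have h7 : (0 : ℝ) < Real.sqrt (Fintype.card k) ^ m := by positivity
      rw [← mul_neg, inv_mul_le_iff₀ h7]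
      linarith
    · rw [sum_const, nsmul_eq_mul]
      split_ifs <;> simp
    · refine le_trans (sum_le_sum_of_subset_of_nonneg (subset_univ U) fun c _ _ => er_nonneg _ _ _ _) (er_sum h2 d κ m n)
  have h8 : ∑ m ∈ Ico 1 M, ((M : ℝ) - m) *
      (E + (U.card * ρ) * (if 2 ∣ m then (1 : ℝ) else 0) + (Fintype.card k : ℝ) ^ n * ((6 * d + d * κ + κ) * (9 / 10) ^ m)) ≤
      E * ((M : ℝ) ^ 2 / 2) + (U.card * ρ) * ((M : ℝ) ^ 2 / 4) + (Fintype.card k : ℝ) ^ n * (6 * d + d * κ + κ) * (M * 10) := by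
    have e1 : ∑ m ∈ Ico 1 M, ((M : ℝ) - m) *
        (E + (U.card * ρ) * (if 2 ∣ m then (1 : ℝ) else 0) + (Fintype.card k : ℝ) ^ n * ((6 * d + d * κ + κ) * (9 / 10) ^ m)) =
        E * ∑ m ∈ Ico 1 M, ((M : ℝ) - m) + (U.card * ρ) * ∑ m ∈ Ico 1 M, ((M : ℝ) - m) * (if 2 ∣ m then (1 : ℝ) else 0) +
          (Fintype.card k : ℝ) ^ n * (6 * d + d * κ + κ) * ∑ m ∈ Ico 1 M, ((M : ℝ) - m) * (9 / 10) ^ m := by
      rw [mul_sum, mul_sum, mul_sum, ← sum_add_distrib, ← sum_add_distrib]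
      exact sum_congr rfl fun m _ => by ring
    have e2 : ∑ m ∈ Ico 1 M, ((M : ℝ) - m) * (9 / 10 : ℝ) ^ m ≤ M * 10 := by
      refine le_trans (sum_le_sum fun m _ => ?_) ((mul_sum (Ico 1 M) (fun m => (9 / 10 : ℝ) ^ m) (M : ℝ)).symm.le.trans
        (mul_le_mul_of_nonneg_left (geo_nine M) hM0.le))
      refine mul_le_mul_of_nonneg_right ?_ (by positivity)
      have : (0 : ℝ) ≤ m := Nat.cast_nonneg _
      linarith
    rw [e1]
    refine add_le_add (add_le_add (mul_le_mul_of_nonneg_left (sum_lin M) hE0)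
      (mul_le_mul_of_nonneg_left (sum_even M) (by positivity))) (mul_le_mul_of_nonneg_left e2 (by positivity))
  have h9 : (∑ c ∈ U, (order (β (mon c)) : ℝ)) * M ^ 2 ≤ (U.card * ((κ + d * n) / M + ρ / 2) + E +
      20 * (6 * d + d * κ + κ) * (Fintype.card k : ℝ) ^ n / M) * M ^ 2 := by
    refine (h5.trans (add_le_add_right (mul_le_mul_of_nonneg_left h8 (by norm_num)) _)).trans (le_of_eq ?_)
    field_simp
    ring
  exact le_of_mul_le_mul_right h9 (by positivity)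

end

end Q282TW
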