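import Pool.Agent.Q282.TW.Stm
import Pool.Agent.TH180.RT.Wt

/-!
# Basic facts on the symbols
-/

set_option autoImplicit false
set_option linter.unusedSectionVars false

namespace Q282TW

open Polynomial Finset
open Pool.Agent.TH180.RT (Pd mem_Pd card_Pd_real finAR cardAR)

section

variable {k : Type} [Field k] [Fintype k]

lemma finR {P : k[X]} (hP : Pr P) : Finite (AdjoinRoot P) := by
  classical exact finAR hP.1.ne_zero

lemma leg_zero {P A : k[X]} (h : P ∣ A) : leg P A = 0 := by
  unfold leg
  rw [if_pos h]

lemma leg_sq {P A : k[X]} (h : ¬ P ∣ A) : leg P A ^ 2 = 1 := by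
  unfold leg
  rw [if_neg h]
  split_ifs <;> norm_num

lemma leg_eq_zero {P A : k[X]} : leg P A = 0 ↔ P ∣ A := by
  refine ⟨fun h => ?_, leg_zero⟩
  by_contra h1
  have := leg_sq h1
  rw [h] at this
  norm_num at this

lemma leg_abs (P A : k[X]) : |(leg P A : ℝ)| ≤ 1 := by
  unfold leg
  split_ifs <;> norm_num

lemma leg_norm (P A : k[X]) : ‖(leg P A : ℂ)‖ ≤ 1 := by
  unfold leg
  split_ifs <;> norm_num

open Classical in
/-- the symbol is the quadratic character of the residue field -/
lemma leg_char {P : k[X]} [Fact (Irreducible P)] [Fintype (AdjoinRoot P)] (A : k[X]) :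
    leg P A = quadraticChar (AdjoinRoot P) (AdjoinRoot.mk P A) := by
  unfold leg
  rw [quadraticChar_apply, quadraticCharFun]
  have h0 : AdjoinRoot.mk P A = 0 ↔ P ∣ A := AdjoinRoot.mk_eq_zero
  by_cases h1 : P ∣ A
  · rw [if_pos h1, if_pos (h0.2 h1)]
  · rw [if_neg h1, if_neg (fun h => h1 (h0.1 h))]
    have h2 : IsSquare (AdjoinRoot.mk P A) ↔ ∃ B : k[X], P ∣ A - B ^ 2 := by
      constructor
      · rintro ⟨r, hr⟩
        obtain ⟨B, rfl⟩ := AdjoinRoot.mk_surjective r
        refine ⟨B, ?_⟩
        rw [← AdjoinRoot.mk_eq_mk, hr, map_pow, sq]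
      · rintro ⟨B, hB⟩
        refine ⟨AdjoinRoot.mk P B, ?_⟩
        rw [← AdjoinRoot.mk_eq_mk] at hB
        rw [hB, map_pow, sq]
    by_cases h3 : ∃ B : k[X], P ∣ A - B ^ 2
    · rw [if_pos h3, if_pos (h2.2 h3)]
    · rw [if_neg h3, if_neg (fun h => h3 (h2.1 h))]

lemma leg_mul {P : k[X]} (hP : Pr P) (A B : k[X]) : leg P (A * B) = leg P A * leg P B := by
  classical
  have : Fact (Irreducible P) := ⟨hP.2⟩
  have := finR hP
  let _ : Fintype (AdjoinRoot P) := Fintype.ofFinite _
  rw [leg_char, leg_char, leg_char, map_mul, map_mul]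

lemma leg_sq' {P : k[X]} (hP : Pr P) (A : k[X]) : leg P (A ^ 2) = leg P A ^ 2 := by
  rw [sq, sq, leg_mul hP]

lemma J_mul {S : Finset k[X]} (hS : ∀ P ∈ S, Pr P) (A B : k[X]) : J S (A * B) = J S A * J S B := by
  unfold J
  rw [← prod_mul_distrib]
  exact prod_congr rfl fun P hP => leg_mul (hS P hP) A B

lemma J_norm (S : Finset k[X]) (A : k[X]) : ‖(J S A : ℂ)‖ ≤ 1 := by
  unfold J
  push_cast
  rw [norm_prod]
  exact prod_le_one (fun _ _ => norm_nonneg _) fun P _ => leg_norm P A

lemma J_sq {S : Finset k[X]} {A : k[X]} (h : ∀ P ∈ S, ¬ P ∣ A) : J S A ^ 2 = 1 := by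
  unfold J
  rw [← prod_pow]
  exact prod_eq_one fun P hP => leg_sq (h P hP)

lemma J_cases {S : Finset k[X]} {A : k[X]} (h : ∀ P ∈ S, ¬ P ∣ A) : J S A = 1 ∨ J S A = -1 :=
  Int.isUnit_iff.1 (IsUnit.of_pow_eq_one (J_sq h) (by norm_num))

lemma J_empty (A : k[X]) : J (∅ : Finset k[X]) A = 1 := prod_empty

lemma J_insert [DecidableEq k[X]] {S : Finset k[X]} {P : k[X]} (hP : P ∉ S) (A : k[X]) : J (insert P S) A = leg P A * J S A := by
  unfold J
  rw [prod_insert hP]

lemma dg_insert [DecidableEq k[X]] {S : Finset k[X]} {P : k[X]} (hP : P ∉ S) : dg (insert P S) = P.natDegree + dg S := by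
  unfold dg
  rw [sum_insert hP]

lemma dg_mono {S T : Finset k[X]} (h : T ⊆ S) : dg T ≤ dg S := sum_le_sum_of_subset h

lemma card_le_dg {S : Finset k[X]} (hS : ∀ P ∈ S, Pr P) : S.card ≤ dg S := by
  unfold dg
  rw [card_eq_sum_ones]
  exact sum_le_sum fun P hP => (hS P hP).2.natDegree_pos

/-! ### the polynomials -/

lemma pol_coeff {n : ℕ} (c : Fin n → k) (i : ℕ) : (pol c).coeff i = if h : i < n then c ⟨i, h⟩ else 0 := by
  unfold pol
  rw [finsetSum_coeff]
  simp only [coeff_C_mul, coeff_X_pow]
  split_ifs with h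
  · rw [sum_eq_single (⟨i, h⟩ : Fin n)]
    · simp
    · intro j _ hj
      rw [if_neg (fun h1 => hj (Fin.ext h1.symm)), mul_zero]
    · intro h1
      exact absurd (mem_univ _) h1
  · refine sum_eq_zero fun j _ => ?_
    rw [if_neg (by
      have := j.2
      omega), mul_zero]

lemma pol_degree {n : ℕ} (c : Fin n → k) : (pol c).degree < n := by
  rw [degree_lt_iff_coeff_zero]
  intro m hm
  rw [pol_coeff, dif_neg (by omega)]

lemma mon_monic {n : ℕ} (c : Fin n → k) : (mon c).Monic := by
  unfold mon
  exact monic_X_pow_add (pol_degree c)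

lemma mon_natDegree {n : ℕ} (c : Fin n → k) : (mon c).natDegree = n := by
  unfold mon
  rw [natDegree_add_eq_left_of_degree_lt (by
    rw [degree_X_pow]
    exact pol_degree c), natDegree_X_pow]

lemma pol_natDegree {n : ℕ} (c : Fin n → k) (hn : 1 ≤ n) : (pol c).natDegree < n := by
  by_cases h : pol c = 0
  · rw [h, natDegree_zero]
    omega
  · exact (natDegree_lt_iff_degree_lt h).2 (pol_degree c)

lemma mon_inj {n : ℕ} : Function.Injective (mon : (Fin n → k) → k[X]) := by
  intro c c' h
  unfold mon at h
  have h1 := add_left_cancel h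
  funext i
  have h2 := congrArg (fun p : k[X] => p.coeff i) h1
  simp only [pol_coeff, i.2, dif_pos] at h2
  exact h2

lemma mon_surj {n : ℕ} {D : k[X]} (hD : D.Monic) (hn : D.natDegree = n) : ∃ c : Fin n → k, mon c = D := by
  refine ⟨fun i => D.coeff i, ?_⟩
  ext i
  unfold mon
  rw [coeff_add, pol_coeff, coeff_X_pow]
  split_ifs with h1 h2 h2
  · omega
  · rw [h1, add_zero, ← hn]
    exact hD.symm
  · rw [zero_add]
  · rw [coeff_eq_zero_of_natDegree_lt (by omega), add_zero]

lemma mon_ne {n : ℕ} (c : Fin n → k) : mon c ≠ 0 := (mon_monic c).ne_zero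

/-- the number of the multiples of a monic polynomial -/
lemma card_mult {n : ℕ} {A : k[X]} (hA : A.Monic) (h : A.natDegree ≤ n) [DecidablePred fun c : Fin n → k => A ∣ mon c] :
    (univ.filter fun c : Fin n → k => A ∣ mon c).card = Fintype.card k ^ (n - A.natDegree) := by
  classical
  have h1 : (univ.filter fun c : Fin n → k => A ∣ mon c).card = (univ : Finset (Fin (n - A.natDegree) → k)).card := by
    refine (card_bij' (i := fun c _ => fun j => (mon c /ₘ A).coeff j) (j := fun b _ => fun j => (A * mon b).coeff j) ?_ ?_ ?_ ?_)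
    · intro c _
      exact mem_univ _
    · intro b _
      rw [mem_filter]
      refine ⟨mem_univ _, ?_⟩
      obtain ⟨c, hc⟩ := mon_surj (n := n) (hA.mul (mon_monic b)) (by
        rw [hA.natDegree_mul (mon_monic b), mon_natDegree]
        omega)
      have : (fun j : Fin n => (A * mon b).coeff j) = c := by
        apply mon_inj
        rw [hc]
        ext i
        unfold mon
        rw [coeff_add, pol_coeff, coeff_X_pow]
        have h3 : (A * (X ^ (n - A.natDegree) + pol b)) = A * mon b := rfl
        rw [h3, ← hc]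
        split_ifs with h1 h2 h2
        · omega
        · rw [h1, add_zero]
          have := mon_monic c
          unfold Monic leadingCoeff at this
          rw [mon_natDegree] at this
          exact this.symm
        · rw [zero_add]
        · rw [coeff_eq_zero_of_natDegree_lt (by
            rw [mon_natDegree]
            omega), add_zero]
      rw [this, hc]
      exact dvd_mul_right _ _
    · intro c hc
      rw [mem_filter] at hc
      obtain ⟨B, hB⟩ := hc.2
      have hBm : B.Monic := hA.of_mul_monic_left (hB ▸ mon_monic c)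
      have hBd : B.natDegree = n - A.natDegree := by
        have := mon_natDegree c
        rw [hB, hA.natDegree_mul hBm] at this
        omega
      obtain ⟨b, hb⟩ := mon_surj hBm hBd
      have h2 : mon c /ₘ A = B := by
        rw [hB]
        exact mul_divByMonic_cancel_left _ hA
      have h3 : (fun j : Fin (n - A.natDegree) => (mon c /ₘ A).coeff j) = b := by
        funext j
        rw [h2, ← hb]
        unfold mon
        rw [coeff_add, coeff_X_pow, if_neg (by
          have := j.2
          omega), zero_add, pol_coeff, dif_pos j.2]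
      funext j
      show (A * mon (fun j : Fin (n - A.natDegree) => (mon c /ₘ A).coeff j)).coeff j = c j
      rw [h3, hb, ← hB]
      unfold mon
      rw [coeff_add, coeff_X_pow, if_neg (by
        have := j.2
        omega), zero_add, pol_coeff, dif_pos j.2]
    · intro b _
      have h2 : ∃ c : Fin n → k, c = (fun j : Fin n => (A * mon b).coeff j) := ⟨_, rfl⟩
      obtain ⟨c, hc⟩ := h2
      have h3 : mon c = A * mon b := by
        obtain ⟨c', hc'⟩ := mon_surj (n := n) (hA.mul (mon_monic b)) (by
          rw [hA.natDegree_mul (mon_monic b), mon_natDegree]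
          omega)
        have : c' = c := by
          rw [hc]
          funext j
          rw [← hc']
          unfold mon
          rw [coeff_add, coeff_X_pow, if_neg (by
            have := j.2
            omega), zero_add, pol_coeff, dif_pos j.2]
        rw [← this, hc']
      funext j
      show (mon (fun j : Fin n => (A * mon b).coeff j) /ₘ A).coeff j = b j
      rw [← hc, h3, mul_divByMonic_cancel_left _ hA]
      unfold mon
      rw [coeff_add, coeff_X_pow, if_neg (by
        have := j.2
        omega), zero_add, pol_coeff, dif_pos j.2]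
  rw [h1, card_univ, Fintype.card_fun, Fintype.card_fin]

end

end Q282TW
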