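import Pool.Agent.Q282.TW.Defs
import Pool.Agent.Q282.TW.Bas

/-!
# The bound for sums over primes of one degree by the Riemann hypothesis for the twists
-/

set_option autoImplicit false
set_option linter.unusedSectionVars false

namespace Q282TW

open Polynomial Finset
open Pool.Agent.TH180.RT (Pd mem_Pd card_Pd_real finAR cardAR)

section

variable {k : Type} [Field k] [Fintype k] [DecidableEq k]

lemma three_le (h2 : (2 : k) ≠ 0) : 3 ≤ Fintype.card k := by
  have h1 : 1 < Fintype.card k := Fintype.one_lt_card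
  have h3 : Fintype.card k ≠ 2 := by
    intro h
    apply h2
    have := Nat.cast_card_eq_zero k
    rw [h] at this
    exact_mod_cast this
  omega

lemma sqrt_ge (h2 : (2 : k) ≠ 0) : (3 / 2 : ℝ) ≤ Real.sqrt (Fintype.card k) := by
  have h : (3 : ℝ) ≤ Fintype.card k := by exact_mod_cast three_le h2
  refine Real.le_sqrt_of_sq_le ?_
  linarith [show ((3 / 2 : ℝ)) ^ 2 = 9 / 4 by norm_num]

lemma sqrt_sq : Real.sqrt (Fintype.card k) ^ 2 = Fintype.card k := Real.sq_sqrt (Nat.cast_nonneg _)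

lemma fsum (m : ℕ) (hm : 1 ≤ m) (f : k[X] → ℂ) :
    ∑ᶠ P ∈ {P : k[X] | Pr P ∧ P.natDegree ∣ m}, f P = ∑ j ∈ m.divisors, ∑ P ∈ Pd k j, f P := by
  classical
  have hset : {P : k[X] | Pr P ∧ P.natDegree ∣ m} = (((m.divisors).biUnion fun j => Pd k j : Finset k[X]) : Set k[X]) := by
    apply Set.ext
    intro P
    rw [Set.mem_ofPred_eq, Finset.mem_coe, Finset.mem_biUnion]
    constructor
    · rintro ⟨⟨h1, h2⟩, h3⟩
      exact ⟨P.natDegree, Nat.mem_divisors.2 ⟨h3, by omega⟩, mem_Pd.2 ⟨h1, h2, rfl⟩⟩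
    · rintro ⟨j, h1, h3⟩
      obtain ⟨p1, p2, p3⟩ := mem_Pd.1 h3
      exact ⟨⟨p1, p2⟩, p3 ▸ (Nat.mem_divisors.1 h1).1⟩
  rw [← sum_biUnion]
  · rw [hset, finsum_mem_coe_finset]
  · intro i _ j _ hij
    rw [Function.onFun, disjoint_left]
    intro P hP hP'
    exact hij ((mem_Pd.1 hP).2.2.symm.trans (mem_Pd.1 hP').2.2)

/-- the sum over the prime divisors of a polynomial -/
lemma sum_dvd (m : ℕ) {W : k[X]} (hW : W ≠ 0) [DecidablePred fun P : k[X] => P ∣ W] :
    m * ((Pd k m).filter fun P => P ∣ W).card ≤ W.natDegree := by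
  have h1 : ∏ P ∈ (Pd k m).filter (fun P => P ∣ W), P ∣ W := by
    refine prod_dvd_of_coprime (fun P hP Q hQ hne => ?_) fun P hP => (mem_filter.1 hP).2
    obtain ⟨p1, p2, p3⟩ := mem_Pd.1 (mem_filter.1 hP).1
    obtain ⟨q1, q2, q3⟩ := mem_Pd.1 (mem_filter.1 hQ).1
    refine (p2.coprime_iff_not_dvd.2 fun h => hne ?_)
    exact eq_of_monic_of_associated p1 q1 (p2.associated_of_dvd q2 h)
  have h2 := natDegree_le_of_dvd h1 hW
  rw [natDegree_prod_of_monic _ _ fun P hP => (mem_Pd.1 (mem_filter.1 hP).1).1,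
    sum_congr rfl fun P hP => (mem_Pd.1 (mem_filter.1 hP).1).2.2, sum_const, smul_eq_mul] at h2
  linarith [mul_comm m ((Pd k m).filter fun P => P ∣ W).card]

lemma sum_mem (m : ℕ) (S : Finset k[X]) [DecidablePred fun P : k[X] => P ∈ S] :
    m * ((Pd k m).filter fun P => P ∈ S).card ≤ dg S := by
  unfold dg
  refine le_trans ?_ (sum_le_sum_of_subset (s := (Pd k m).filter fun P => P ∈ S) fun P hP => (mem_filter.1 hP).2)
  rw [sum_congr rfl fun P hP => (mem_Pd.1 (mem_filter.1 hP).1).2.2, sum_const, smul_eq_mul, mul_comm]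

/-- the geometric series -/
lemma geo_q (h2 : (2 : k) ≠ 0) (n : ℕ) : ∑ j ∈ Ico 1 (n + 1), (Fintype.card k : ℝ) ^ j ≤ 3 / 2 * (Fintype.card k : ℝ) ^ n := by
  have h : (3 : ℝ) ≤ Fintype.card k := by exact_mod_cast three_le h2
  induction n with
  | zero => norm_num
  | succ n ih =>
    rw [sum_Ico_succ_top (by omega)]
    have h3 : (0 : ℝ) ≤ (Fintype.card k : ℝ) ^ n := by positivity
    have h4 : (Fintype.card k : ℝ) ^ (n + 1) = Fintype.card k * (Fintype.card k : ℝ) ^ n := pow_succ' _ _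
    rw [h4]
    nlinarith

/-- the sum over the primes of degree `m` not in `S`, with the traces as coefficients -/
noncomputable def F {d : ℕ} (α : k[X] → Fin d → ℂ) (S : Finset k[X]) [DecidablePred fun P : k[X] => P ∉ S] (m : ℕ) (W : k[X]) : ℂ :=
  ∑ P ∈ (Pd k m).filter (fun P => P ∉ S), (m : ℂ) * (∑ i, α P i) * leg P W

variable {d : ℕ}

lemma sum_norm_le {f : Fin d → ℂ} (h : ∀ i, ‖f i‖ ≤ 1) (n : ℕ) : ‖∑ i, f i ^ n‖ ≤ d := by
  refine (norm_sum_le _ _).trans ?_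
  refine (sum_le_card_nsmul _ _ 1 fun i _ => ?_).trans (by simp)
  rw [norm_pow]
  exact pow_le_one₀ (norm_nonneg _) (h i)

/-- the terms with prime powers -/
lemma rest_le (h2 : (2 : k) ≠ 0) {δ : k[X] → Fin d → ℂ} (hδ : ∀ P, Pr P → ∀ i, ‖δ P i‖ ≤ 1) (m e : ℕ) (J : Finset ℕ)
    (hJ : ∀ j ∈ J, 1 ≤ j ∧ j ≤ e) :
    ‖∑ j ∈ J, ∑ P ∈ Pd k j, (P.natDegree : ℂ) * ∑ i, δ P i ^ (m / P.natDegree)‖ ≤ 3 / 2 * d * (Fintype.card k : ℝ) ^ e := by
  have h1 : ∀ j ∈ J, ‖∑ P ∈ Pd k j, (P.natDegree : ℂ) * ∑ i, δ P i ^ (m / P.natDegree)‖ ≤ d * (Fintype.card k : ℝ) ^ j := by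
    intro j hj
    refine (norm_sum_le _ _).trans ?_
    refine (sum_le_card_nsmul _ _ ((j : ℝ) * d) fun P hP => ?_).trans ?_
    · obtain ⟨p1, p2, p3⟩ := mem_Pd.1 hP
      rw [norm_mul, p3, Complex.norm_natCast]
      exact mul_le_mul_of_nonneg_left (sum_norm_le (hδ P ⟨p1, p2⟩) _) (Nat.cast_nonneg _)
    · rw [nsmul_eq_mul]
      have := card_Pd_real (k := k) j
      rw [Nat.card_eq_fintype_card] at this
      have hd : (0 : ℝ) ≤ d := Nat.cast_nonneg _
      calc ((Pd k j).card : ℝ) * (j * d) = d * ((Pd k j).card * j) := by ring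
        _ ≤ _ := mul_le_mul_of_nonneg_left this hd
  refine (norm_sum_le _ _).trans ((sum_le_sum h1).trans ?_)
  have h3 : J ⊆ Ico 1 (e + 1) := by
    intro j hj
    rw [mem_Ico]
    have := hJ j hj
    omega
  refine (sum_le_sum_of_subset_of_nonneg h3 fun j _ _ => by positivity).trans ?_
  rw [← mul_sum]
  have := geo_q h2 e
  calc (d : ℝ) * ∑ j ∈ Ico 1 (e + 1), (Fintype.card k : ℝ) ^ j ≤ d * (3 / 2 * (Fintype.card k : ℝ) ^ e) :=
        mul_le_mul_of_nonneg_left this (Nat.cast_nonneg _)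
    _ = _ := by ring

lemma pow_half (h2 : (2 : k) ≠ 0) {e m : ℕ} (h : 2 * e ≤ m) :
    (Fintype.card k : ℝ) ^ e ≤ Real.sqrt (Fintype.card k) ^ m := by
  have h1 := sqrt_ge h2
  calc (Fintype.card k : ℝ) ^ e = Real.sqrt (Fintype.card k) ^ (2 * e) := by rw [pow_mul, sqrt_sq]
    _ ≤ _ := pow_le_pow_right₀ (by linarith) h

/-- **The bound by the Riemann hypothesis for the twist.** -/
theorem F_bound (h2 : (2 : k) ≠ 0) {α : k[X] → Fin d → ℂ} {S : Finset k[X]} [DecidablePred fun P : k[X] => P ∉ S] {κ : ℕ}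
    (hS : dg S ≤ κ) {W : k[X]} (hW : W ≠ 0) {N : ℕ} {β : Fin N → ℂ} (hN : N ≤ κ + d * W.natDegree)
    (hβ : IsTwist α W β) (m : ℕ) (hm : 1 ≤ m) :
    ‖F α S m W‖ ≤ Real.sqrt (Fintype.card k) ^ m * (κ + 3 * d + d * κ + 2 * d * W.natDegree) := by
  classical
  obtain ⟨hβ1, γ, δ, hγ, hδ, hsum⟩ := hβ
  have hs := hsum m hm
  rw [fsum m hm, ← Nat.cons_self_properDivisors (by omega : m ≠ 0), sum_cons] at hs
  obtain ⟨R, hR⟩ : ∃ R : ℂ, R = ∑ j ∈ m.properDivisors, ∑ P ∈ Pd k j, (P.natDegree : ℂ) * ∑ i, δ P i ^ (m / P.natDegree) := ⟨_, rfl⟩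
  obtain ⟨s, hsdef⟩ : ∃ s : ℝ, s = Real.sqrt (Fintype.card k) := ⟨_, rfl⟩
  have hs1 : (3 / 2 : ℝ) ≤ s := hsdef ▸ sqrt_ge h2
  have hsm : (1 : ℝ) ≤ s ^ m := one_le_pow₀ (by linarith)
  have hRb : ‖R‖ ≤ 3 / 2 * d * s ^ m := by
    rw [hR]
    refine (rest_le h2 (fun P hP => (hδ P hP).1) m (m / 2) _ fun j hj => ?_).trans ?_
    · rw [Nat.mem_properDivisors] at hj
      obtain ⟨⟨c, hc⟩, hj2⟩ := hj
      have hj1 : 1 ≤ j := by
        rcases Nat.eq_zero_or_pos j with h | h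
        · rw [h] at hc
          omega
        · exact h
      refine ⟨hj1, ?_⟩
      have : 2 ≤ c := by
        by_contra hc2
        have : c = 0 ∨ c = 1 := by omega
        rcases this with h | h <;> rw [h] at hc <;> omega
      rw [Nat.le_div_iff_mul_le (by norm_num)]
      rw [hc]
      exact Nat.mul_le_mul_left _ this
    · rw [hsdef]
      exact mul_le_mul_of_nonneg_left (pow_half h2 (Nat.mul_div_le _ _)) (by positivity)
  -- the main term
  obtain ⟨A, hA⟩ : ∃ A : ℂ, A = ∑ P ∈ Pd k m, (P.natDegree : ℂ) * ∑ i, δ P i ^ (m / P.natDegree) := ⟨_, rfl⟩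
  have hdiff : ‖A - F α S m W‖ ≤ d * (κ + W.natDegree) := by
    have h1 : A - F α S m W = ∑ P ∈ Pd k m, ((m : ℂ) * ∑ i, δ P i - if P ∉ S then (m : ℂ) * (∑ i, α P i) * leg P W else 0) := by
      rw [hA, F, sum_filter, ← sum_sub_distrib]
      refine sum_congr rfl fun P hP => ?_
      obtain ⟨p1, p2, p3⟩ := mem_Pd.1 hP
      rw [p3, Nat.div_self (by omega)]
      congr 2
      exact sum_congr rfl fun i _ => by rw [pow_one]
    have h3 : ∀ P ∈ Pd k m, ‖(m : ℂ) * ∑ i, δ P i - (if P ∉ S then (m : ℂ) * (∑ i, α P i) * leg P W else 0)‖ ≤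
        (if P ∈ S then (m : ℝ) * d else 0) + (if P ∣ W then (m : ℝ) * d else 0) := by
      intro P hP
      obtain ⟨p1, p2, p3⟩ := mem_Pd.1 hP
      have h4 : ‖(m : ℂ) * ∑ i, δ P i‖ ≤ m * d := by
        rw [norm_mul, Complex.norm_natCast]
        have := sum_norm_le (hδ P ⟨p1, p2⟩).1 1
        simp only [pow_one] at this
        exact mul_le_mul_of_nonneg_left this (Nat.cast_nonneg _)
      have h5 : (0 : ℝ) ≤ m * d := by positivity
      by_cases hPS : P ∈ S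
      · rw [if_neg (not_not.2 hPS), if_pos hPS, sub_zero]
        split_ifs <;> linarith
      · rw [if_pos hPS, if_neg hPS]
        by_cases hPW : P ∣ W
        · rw [if_pos hPW, leg_zero hPW]
          simp only [Int.cast_zero, mul_zero, sub_zero, zero_add]
          exact h4
        · rw [if_neg hPW]
          have h6 : ∑ i, δ P i = (∑ i, α P i) * leg P W := by
            rw [sum_mul]
            refine sum_congr rfl fun i _ => ?_
            rw [(hδ P ⟨p1, p2⟩).2 hPW i, mul_comm]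
          rw [h6, mul_assoc, sub_self, norm_zero, zero_add]
    rw [h1]
    refine (norm_sum_le _ _).trans ((sum_le_sum h3).trans ?_)
    rw [sum_add_distrib, ← sum_filter, ← sum_filter, sum_const, sum_const, nsmul_eq_mul, nsmul_eq_mul]
    have h7 : (m : ℝ) * ((Pd k m).filter fun P => P ∈ S).card ≤ κ := by exact_mod_cast (sum_mem m S).trans hS
    have h8 : (m : ℝ) * ((Pd k m).filter fun P => P ∣ W).card ≤ W.natDegree := by exact_mod_cast sum_dvd m hW
    have hd : (0 : ℝ) ≤ d := Nat.cast_nonneg _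
    nlinarith
  have hβn : ‖∑ j, β j ^ m‖ ≤ N := by
    refine (norm_sum_le _ _).trans ?_
    refine (sum_le_card_nsmul _ _ 1 fun i _ => ?_).trans (by simp)
    rw [norm_pow, hβ1 i, one_pow]
  have hγn : ‖∑ i, γ i ^ m‖ ≤ d := sum_norm_le hγ m
  have h9 : F α S m W = -((Real.sqrt (Fintype.card k) : ℂ) ^ m * ∑ j, β j ^ m) - ∑ i, γ i ^ m - R - (A - F α S m W) := by
    rw [← hA, ← hR] at hs
    linear_combination -hs
  have hN' : (N : ℝ) ≤ κ + d * W.natDegree := by exact_mod_cast hN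
  have h10 : ‖(Real.sqrt (Fintype.card k) : ℂ) ^ m * ∑ j, β j ^ m‖ ≤ s ^ m * (κ + d * W.natDegree) := by
    rw [norm_mul, norm_pow, Complex.norm_real, Real.norm_of_nonneg (Real.sqrt_nonneg _), ← hsdef]
    exact mul_le_mul_of_nonneg_left (hβn.trans hN') (by positivity)
  rw [← hsdef]
  have hd : (0 : ℝ) ≤ d := Nat.cast_nonneg _
  have hk : (0 : ℝ) ≤ κ := Nat.cast_nonneg _
  have hw : (0 : ℝ) ≤ W.natDegree := Nat.cast_nonneg _
  calc ‖F α S m W‖ = ‖-((Real.sqrt (Fintype.card k) : ℂ) ^ m * ∑ j, β j ^ m) - ∑ i, γ i ^ m - R - (A - F α S m W)‖ :=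
        congrArg _ h9
    _ ≤ ‖(Real.sqrt (Fintype.card k) : ℂ) ^ m * ∑ j, β j ^ m‖ + ‖∑ i, γ i ^ m‖ + ‖R‖ + ‖A - F α S m W‖ := by
        refine (norm_sub_le _ _).trans (add_le_add_left ?_ _)
        refine (norm_sub_le _ _).trans (add_le_add_left ?_ _)
        refine (norm_sub_le _ _).trans (add_le_add_left ?_ _)
        rw [norm_neg]
    _ ≤ s ^ m * (κ + d * W.natDegree) + d + 3 / 2 * d * s ^ m + d * (κ + W.natDegree) := by
        linarith
    _ ≤ _ := by
        have e1 : (0 : ℝ) ≤ d * (s ^ m - 1) := mul_nonneg hd (by linarith)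
        have e2 : (0 : ℝ) ≤ (d * κ) * (s ^ m - 1) := mul_nonneg (by positivity) (by linarith)
        have e3 : (0 : ℝ) ≤ (d * W.natDegree) * (s ^ m - 1) := mul_nonneg (by positivity) (by linarith)
        have e4 : (0 : ℝ) ≤ d * s ^ m := by positivity
        nlinarith

end

end Q282TW
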