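import Pool.Agent.Q282.TW.Bnd

/-!
# The sums of the traces over squarefree polynomials, by Poisson summation
-/

set_option autoImplicit false
set_option linter.unusedSectionVars false

namespace Q282TW

open Polynomial Finset
open Pool.Agent.TH180.RT (Pd mem_Pd card_Pd_real)

section

variable {k : Type} [Field k] [Fintype k] [DecidableEq k] {d : ℕ}

/-- all twists are controlled -/
def Ctl (κ : ℕ) (α : k[X] → Fin d → ℂ) : Prop :=
  ∀ W : k[X], W ≠ 0 → ∃ (N : ℕ) (β : Fin N → ℂ), N ≤ κ + d * W.natDegree ∧ IsTwist α W β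

/-- the constant -/
noncomputable def KK (κ d L : ℕ) : ℝ := κ + 3 * d + d * κ + 2 * d * L

lemma KK_nonneg (κ d L : ℕ) : 0 ≤ KK κ d L := by
  unfold KK
  positivity

lemma KK_mono (κ d : ℕ) {L L' : ℕ} (h : L ≤ L') : KK κ d L ≤ KK κ d L' := by
  unfold KK
  have : (L : ℝ) ≤ L' := by exact_mod_cast h
  gcongr

lemma F_zero (α : k[X] → Fin d → ℂ) (S : Finset k[X]) [DecidablePred fun P : k[X] => P ∉ S] (m : ℕ) : F α S m 0 = 0 := by
  unfold F
  refine sum_eq_zero fun P _ => ?_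
  rw [leg_zero (dvd_zero P)]
  simp

lemma F_le (h2 : (2 : k) ≠ 0) {α : k[X] → Fin d → ℂ} {S : Finset k[X]} [DecidablePred fun P : k[X] => P ∉ S] {κ : ℕ}
    (hS : dg S ≤ κ) (hc : Ctl κ α) {W : k[X]} {L : ℕ} (hL : W.natDegree ≤ L) (m : ℕ) (hm : 1 ≤ m) :
    ‖F α S m W‖ ≤ Real.sqrt (Fintype.card k) ^ m * KK κ d L := by
  by_cases hW : W = 0
  · rw [hW, F_zero, norm_zero]
    exact mul_nonneg (by positivity) (KK_nonneg _ _ _)
  · obtain ⟨N, β, hN, hβ⟩ := hc W hW
    refine (F_bound h2 hS hW hN hβ m hm).trans ?_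
    exact mul_le_mul_of_nonneg_left (KK_mono κ d hL) (by positivity)

/-- the trivial bound -/
lemma Z_triv (h2 : (2 : k) ≠ 0) {α : k[X] → Fin d → ℂ} {S T : Finset k[X]} [DecidablePred fun P : k[X] => P ∉ S] {κ : ℕ}
    (hS : dg S ≤ κ) (hc : Ctl κ α) {W : k[X]} (hW : W ≠ 0) {L ν : ℕ} (hL : W.natDegree + ν ≤ L) (m : ℕ) (hm : 1 ≤ m) :
    ‖∑ b : Fin ν → k, (J T (mon b) : ℂ) * F α S m (W * mon b)‖ ≤
      (Fintype.card k : ℝ) ^ ν * (Real.sqrt (Fintype.card k) ^ m * KK κ d L) := by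
  refine (norm_sum_le _ _).trans ((sum_le_card_nsmul _ _ (Real.sqrt (Fintype.card k) ^ m * KK κ d L) fun b _ => ?_).trans ?_)
  · rw [norm_mul]
    have h1 := J_norm T (mon b)
    have h3 : (W * mon b).natDegree ≤ L := by
      rw [natDegree_mul hW (mon_ne b), mon_natDegree]
      exact hL
    have h4 := F_le (S := S) h2 hS hc h3 m hm
    calc ‖(J T (mon b) : ℂ)‖ * ‖F α S m (W * mon b)‖ ≤ 1 * (Real.sqrt (Fintype.card k) ^ m * KK κ d L) :=
          mul_le_mul h1 h4 (norm_nonneg _) zero_le_one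
      _ = _ := one_mul _
  · rw [card_univ, Fintype.card_fun, Fintype.card_fin, nsmul_eq_mul]
    push_cast
    exact le_rfl

/-- the sum with the symbols, as a sum over primes -/
lemma Z_eq {α : k[X] → Fin d → ℂ} {S T : Finset k[X]} [DecidablePred fun P : k[X] => P ∉ S] [DecidableEq k[X]]
    (hT : T ⊆ S) {ι : Type} (s : Finset ι) (f : ι → k[X]) (ψ : ι → ℂ) (m : ℕ) (W : k[X]) :
    ∑ b ∈ s, ψ b * ((J T (f b) : ℂ) * F α S m (W * f b)) =
      ∑ P ∈ (Pd k m).filter (fun P => P ∉ S), (m : ℂ) * (∑ i, α P i) * leg P W * ∑ b ∈ s, ψ b * (J (insert P T) (f b) : ℂ) := by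
  unfold F
  simp only [mul_sum]
  rw [sum_comm]
  refine sum_congr rfl fun P hP => sum_congr rfl fun b _ => ?_
  rw [mem_filter] at hP
  obtain ⟨p1, p2, p3⟩ := mem_Pd.1 hP.1
  rw [J_insert (fun h => hP.2 (hT h)), leg_mul ⟨p1, p2⟩]
  push_cast
  ring

/-- **The bound by Poisson summation.** -/
theorem Z_pois (hpois : S_pois) (hvan : S_van) (h2 : (2 : k) ≠ 0) {α : k[X] → Fin d → ℂ} {S T : Finset k[X]}
    [DecidablePred fun P : k[X] => P ∉ S] (hSP : ∀ P ∈ S, Pr P) (hT : T ⊆ S) {κ : ℕ} (hS : dg S ≤ κ) (hc : Ctl κ α) {W : k[X]}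
    {L : ℕ} (ν : ℕ) (m : ℕ) (hm : 1 ≤ m) (hL : W.natDegree + m + κ ≤ L) :
    ‖∑ b : Fin ν → k, (J T (mon b) : ℂ) * F α S m (W * mon b)‖ ≤
      Real.sqrt (Fintype.card k) ^ κ * (Fintype.card k : ℝ) ^ m * KK κ d L := by
  classical
  have hq : (0 : ℝ) < Fintype.card k := by
    have := three_le h2
    positivity
  have hqs : (0 : ℝ) < Real.sqrt (Fintype.card k) := by
    have := sqrt_ge h2
    linarith
  have hTκ : dg T ≤ κ := (dg_mono hT).trans hS
  have hins : ∀ P ∈ (Pd k m).filter (fun P => P ∉ S), (∀ Q ∈ insert P T, Pr Q) ∧ dg (insert P T) = m + dg T := by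
    intro P hP
    rw [mem_filter] at hP
    obtain ⟨p1, p2, p3⟩ := mem_Pd.1 hP.1
    refine ⟨fun Q hQ => ?_, ?_⟩
    · rcases mem_insert.1 hQ with h | h
      · rw [h]
        exact ⟨p1, p2⟩
      · exact hSP Q (hT h)
    · rw [dg_insert (fun h => hP.2 (hT h)), p3]
  have e1 := Z_eq (α := α) (S := S) (T := T) hT (univ : Finset (Fin ν → k)) mon (fun _ => 1) m W
  simp only [one_mul] at e1
  rw [e1]
  by_cases hν : m + dg T ≤ ν
  · rw [sum_eq_zero]
    · rw [norm_zero]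
      exact mul_nonneg (by positivity) (KK_nonneg _ _ _)
    · intro P hP
      obtain ⟨h3, h4⟩ := hins P hP
      rw [hvan k h2 (insert P T) h3 (insert_nonempty _ _) ν (by rw [h4]; exact hν), mul_zero]
  · push Not at hν
    obtain ⟨G, ψ, hG, hψ, hp⟩ := hpois k h2
    obtain ⟨c₀, hc₀⟩ : ∃ c₀ : ℂ, c₀ = (Fintype.card k : ℂ) ^ ν / (Fintype.card k : ℂ) ^ (m + dg T) * G (m + dg T) := ⟨_, rfl⟩
    have e2 : ∑ P ∈ (Pd k m).filter (fun P => P ∉ S), (m : ℂ) * (∑ i, α P i) * leg P W * ∑ b : Fin ν → k, (J (insert P T) (mon b) : ℂ) =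
        c₀ * ∑ c : Fin (m + dg T - ν) → k, ψ ((pol c).coeff (m + dg T - ν - 1)) * ((J T (pol c) : ℂ) * F α S m (W * pol c)) := by
      rw [Z_eq (α := α) (S := S) (T := T) hT (univ : Finset (Fin (m + dg T - ν) → k)) pol
        (fun c => ψ ((pol c).coeff (m + dg T - ν - 1))) m W, mul_sum]
      refine sum_congr rfl fun P hP => ?_
      obtain ⟨h3, h4⟩ := hins P hP
      have h5 := hp (insert P T) h3 ν (by rw [h4]; exact hν)
      rw [h4] at h5
      rw [h5, hc₀]
      ring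
    rw [e2, norm_mul]
    have e3 : ‖∑ c : Fin (m + dg T - ν) → k, ψ ((pol c).coeff (m + dg T - ν - 1)) * ((J T (pol c) : ℂ) * F α S m (W * pol c))‖ ≤
        (Fintype.card k : ℝ) ^ (m + dg T - ν) * (Real.sqrt (Fintype.card k) ^ m * KK κ d L) := by
      refine (norm_sum_le _ _).trans ((sum_le_card_nsmul _ _ (Real.sqrt (Fintype.card k) ^ m * KK κ d L) fun b _ => ?_).trans ?_)
      · rw [norm_mul, norm_mul, hψ, one_mul]
        have h1 := J_norm T (pol b)
        have h3 : (W * pol b).natDegree ≤ L := by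
          refine natDegree_mul_le.trans ?_
          have := pol_natDegree b (by omega)
          omega
        have h4 := F_le (S := S) h2 hS hc h3 m hm
        calc ‖(J T (pol b) : ℂ)‖ * ‖F α S m (W * pol b)‖ ≤ 1 * (Real.sqrt (Fintype.card k) ^ m * KK κ d L) :=
              mul_le_mul h1 h4 (norm_nonneg _) zero_le_one
          _ = _ := one_mul _
      · rw [card_univ, Fintype.card_fun, Fintype.card_fin, nsmul_eq_mul]
        push_cast
        exact le_rfl
    have e4 : ‖c₀‖ = (Fintype.card k : ℝ) ^ ν / (Fintype.card k : ℝ) ^ (m + dg T) * Real.sqrt (Fintype.card k) ^ (m + dg T) := by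
      rw [hc₀, norm_mul, norm_div, norm_pow, norm_pow, Complex.norm_natCast, hG]
    rw [e4]
    have e5 : (Fintype.card k : ℝ) ^ ν / (Fintype.card k : ℝ) ^ (m + dg T) * Real.sqrt (Fintype.card k) ^ (m + dg T) *
        ((Fintype.card k : ℝ) ^ (m + dg T - ν) * (Real.sqrt (Fintype.card k) ^ m * KK κ d L)) =
        Real.sqrt (Fintype.card k) ^ dg T * (Fintype.card k : ℝ) ^ m * KK κ d L := by
      have h6 : (Fintype.card k : ℝ) ^ ν * (Fintype.card k : ℝ) ^ (m + dg T - ν) = (Fintype.card k : ℝ) ^ (m + dg T) := by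
        rw [← pow_add]
        congr 1
        omega
      have h7 : Real.sqrt (Fintype.card k) ^ (m + dg T) * Real.sqrt (Fintype.card k) ^ m =
          Real.sqrt (Fintype.card k) ^ dg T * (Fintype.card k : ℝ) ^ m := by
        rw [pow_add, ← sqrt_sq (k := k), ← pow_mul]
        simp only [sqrt_sq]
        rw [show 2 * m = m + m by ring, pow_add]
        ring
      have h8 : (Fintype.card k : ℝ) ^ (m + dg T) ≠ 0 := (pow_pos hq _).ne'
      calc _ = ((Fintype.card k : ℝ) ^ ν * (Fintype.card k : ℝ) ^ (m + dg T - ν)) / (Fintype.card k : ℝ) ^ (m + dg T) *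
            (Real.sqrt (Fintype.card k) ^ (m + dg T) * Real.sqrt (Fintype.card k) ^ m) * KK κ d L := by ring
        _ = _ := by rw [h6, div_self h8, one_mul, h7]
    refine (mul_le_mul_of_nonneg_left e3 (by positivity)).trans (e5.le.trans ?_)
    refine mul_le_mul_of_nonneg_right (mul_le_mul_of_nonneg_right ?_ (by positivity)) (KK_nonneg _ _ _)
    exact pow_le_pow_right₀ (by
      have := sqrt_ge h2
      linarith) hTκ

end

end Q282TW
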