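import Pool.Agent.Q282.TW.ClA

/-!
# The sums over squarefree polynomials
-/

set_option autoImplicit false
set_option linter.unusedSectionVars false

namespace Q282TW

open Polynomial Finset
open Pool.Agent.TH180.RT (Pd mem_Pd card_Pd_real)

section

variable {k : Type} [Field k] [Fintype k] {d : ℕ}

open Classical in
/-- the sum over the squarefree polynomials prime to `S` -/
noncomputable def XX (S T : Finset k[X]) (n : ℕ) (g : k[X] → ℂ) : ℂ :=
  ∑ c : Fin n → k, if Squarefree (mon c) ∧ ∀ P ∈ S, ¬ P ∣ mon c then (J T (mon c) : ℂ) * g (mon c) else 0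

lemma prod_ne {R : Finset k[X]} (hR : ∀ P ∈ R, Pr P) : (∏ P ∈ R, P) ≠ 0 :=
  prod_ne_zero_iff.2 fun P hP => (hR P hP).1.ne_zero

lemma prod_deg {R : Finset k[X]} (hR : ∀ P ∈ R, Pr P) : (∏ P ∈ R, P).natDegree = dg R :=
  natDegree_prod_of_monic _ _ fun P hP => (hR P hP).1

/-- **Expansion.** -/
theorem expand (hsqf : S_sqf) (hcop : S_cop) {S T : Finset k[X]} (hSP : ∀ P ∈ S, Pr P) (hT : T ⊆ S) (n : ℕ) (g : k[X] → ℂ) :
    ‖XX S T n g‖ ≤ ∑ a ∈ range (n / 2 + 1), ∑ e : Fin a → k, ∑ R ∈ S.powerset.filter (fun R => dg R ≤ n - 2 * a),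
      ‖∑ b : Fin (n - 2 * a - dg R) → k, (J T (mon b) : ℂ) * g (mon e ^ 2 * (∏ P ∈ R, P) * mon b)‖ := by
  classical
  obtain ⟨μ, hμ, hs⟩ := hsqf k
  obtain ⟨h, hdef⟩ : ∃ h : k[X] → ℂ, ∀ D, h D = if ∀ P ∈ S, ¬ P ∣ D then (J T D : ℂ) * g D else 0 := ⟨_, fun _ => rfl⟩
  have h1 : XX S T n g = ∑ c : Fin n → k, (if Squarefree (mon c) then h (mon c) else 0) := by
    unfold XX
    refine sum_congr rfl fun c _ => ?_
    rw [hdef]
    by_cases h3 : Squarefree (mon c)
    · by_cases h4 : ∀ P ∈ S, ¬ P ∣ mon c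
      · rw [if_pos ⟨h3, h4⟩, if_pos h3, if_pos h4]
      · rw [if_neg (fun h => h4 h.2), if_pos h3, if_neg h4]
    · rw [if_neg (fun h => h3 h.1), if_neg h3]
  rw [h1, hs n h]
  refine (norm_sum_le _ _).trans (sum_le_sum fun a ha => (norm_sum_le _ _).trans (sum_le_sum fun e _ => ?_))
  rw [norm_mul]
  refine (mul_le_mul_of_nonneg_right (hμ _) (norm_nonneg _)).trans ?_
  rw [one_mul]
  have h0 : 0 ≤ ∑ R ∈ S.powerset.filter (fun R => dg R ≤ n - 2 * a),
      ‖∑ b : Fin (n - 2 * a - dg R) → k, (J T (mon b) : ℂ) * g (mon e ^ 2 * (∏ P ∈ R, P) * mon b)‖ :=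
    sum_nonneg fun _ _ => norm_nonneg _
  by_cases hE : ∀ P ∈ S, ¬ P ∣ mon e
  · obtain ⟨u, udef⟩ : ∃ u : k[X] → ℂ, ∀ B, u B = (J T B : ℂ) * g (mon e ^ 2 * B) := ⟨_, fun _ => rfl⟩
    have h3 : ∑ b : Fin (n - 2 * a) → k, h (mon e ^ 2 * mon b) =
        ∑ b : Fin (n - 2 * a) → k, (if ∀ P ∈ S, ¬ P ∣ mon b then u (mon b) else 0) := by
      refine sum_congr rfl fun b _ => ?_
      rw [hdef, udef]
      have hiff : (∀ P ∈ S, ¬ P ∣ mon e ^ 2 * mon b) ↔ ∀ P ∈ S, ¬ P ∣ mon b := by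
        refine forall₂_congr fun P hP => not_congr ?_
        have hp : Prime P := (hSP P hP).2.prime
        constructor
        · intro h
          exact (hp.dvd_or_dvd h).resolve_left fun h4 => hE P hP (hp.dvd_of_dvd_pow h4)
        · exact fun h => h.mul_left _
      by_cases h4 : ∀ P ∈ S, ¬ P ∣ mon b
      · have h5 : J T (mon e) ^ 2 = 1 := J_sq (fun P hP => hE P (hT hP))
        have h6 : J T (mon e ^ 2 * mon b) = J T (mon b) := by
          rw [J_mul (fun P hP => hSP P (hT hP)), sq, J_mul (fun P hP => hSP P (hT hP)), ← sq, h5, one_mul]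
        rw [if_pos h4, if_pos (hiff.2 h4), h6]
      · rw [if_neg h4, if_neg (fun h => h4 (hiff.1 h))]
    rw [h3, hcop k S hSP (n - 2 * a) u]
    refine (norm_sum_le _ _).trans ?_
    refine sum_le_sum fun R hR => ?_
    have hRS : R ⊆ S := mem_powerset.1 (mem_filter.1 hR).1
    rw [norm_mul, norm_pow, norm_neg, norm_one, one_pow, one_mul]
    have h5 : ∑ b : Fin (n - 2 * a - dg R) → k, u ((∏ P ∈ R, P) * mon b) =
        (J T (∏ P ∈ R, P) : ℂ) * ∑ b : Fin (n - 2 * a - dg R) → k, (J T (mon b) : ℂ) * g (mon e ^ 2 * (∏ P ∈ R, P) * mon b) := by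
      rw [mul_sum]
      refine sum_congr rfl fun b _ => ?_
      rw [udef, J_mul (fun P hP => hSP P (hT hP)), ← mul_assoc (mon e ^ 2)]
      push_cast
      ring
    rw [h5, norm_mul]
    refine (mul_le_mul_of_nonneg_right (J_norm _ _) (norm_nonneg _)).trans ?_
    rw [one_mul]
  · have h3 : ∑ b : Fin (n - 2 * a) → k, h (mon e ^ 2 * mon b) = 0 := by
      refine sum_eq_zero fun b _ => ?_
      rw [hdef, if_neg]
      intro h
      apply hE
      intro P hP h4
      exact h P hP (Dvd.dvd.mul_right (dvd_pow h4 two_ne_zero) _)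
    rw [h3, norm_zero]
    exact h0

lemma card_pow {S : Finset k[X]} (hSP : ∀ P ∈ S, Pr P) {κ : ℕ} (hS : dg S ≤ κ) (p : Finset k[X] → Prop) [DecidablePred p] :
    (((S.powerset.filter p).card : ℕ) : ℝ) ≤ 2 ^ κ := by
  have h1 : (S.powerset.filter p).card ≤ 2 ^ κ := by
    refine (card_filter_le _ _).trans ?_
    rw [card_powerset]
    exact Nat.pow_le_pow_right (by norm_num) ((card_le_dg hSP).trans hS)
  exact_mod_cast h1

variable [DecidableEq k]

/-- **The sum of the traces over squarefree polynomials.** -/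
theorem XX_F (hsqf : S_sqf) (hcop : S_cop) (hpois : S_pois) (hvan : S_van) (h2 : (2 : k) ≠ 0) {α : k[X] → Fin d → ℂ}
    {S T : Finset k[X]} [DecidablePred fun P : k[X] => P ∉ S] (hSP : ∀ P ∈ S, Pr P) (hT : T ⊆ S) {κ : ℕ} (hS : dg S ≤ κ)
    (hc : Ctl κ α) {n m a₀ : ℕ} (hm : 1 ≤ m) (hM : m + 4 * a₀ + κ ≤ 2 * n) :
    ‖XX S T n (F α S m)‖ ≤
      (n + 1) * (2 ^ κ * ((Fintype.card k : ℝ) ^ (n - a₀) * (Real.sqrt (Fintype.card k) ^ m * KK κ d (n + m + κ)))) := by
  classical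
  have hq1 : (1 : ℝ) ≤ Fintype.card k := by exact_mod_cast (by have := three_le h2; omega : 1 ≤ Fintype.card k)
  have hqs : (1 : ℝ) ≤ Real.sqrt (Fintype.card k) := by
    have := sqrt_ge h2
    linarith
  refine (expand hsqf hcop hSP hT n _).trans ?_
  have hB : ∀ a ∈ range (n / 2 + 1), ∑ e : Fin a → k, ∑ R ∈ S.powerset.filter (fun R => dg R ≤ n - 2 * a),
      ‖∑ b : Fin (n - 2 * a - dg R) → k, (J T (mon b) : ℂ) * F α S m (mon e ^ 2 * (∏ P ∈ R, P) * mon b)‖ ≤
      2 ^ κ * ((Fintype.card k : ℝ) ^ (n - a₀) * (Real.sqrt (Fintype.card k) ^ m * KK κ d (n + m + κ))) := by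
    intro a ha
    rw [mem_range] at ha
    have ha2 : 2 * a ≤ n := by omega
    -- the bound for each term
    obtain ⟨B, hBdef⟩ : ∃ B : ℝ, B = Real.sqrt (Fintype.card k) ^ m * KK κ d (n + m + κ) := ⟨_, rfl⟩
    have hB0 : 0 ≤ B := by
      rw [hBdef]
      exact mul_nonneg (by positivity) (KK_nonneg _ _ _)
    have hterm : ∀ e : Fin a → k, ∀ R ∈ S.powerset.filter (fun R => dg R ≤ n - 2 * a),
        (Fintype.card k : ℝ) ^ a *
          ‖∑ b : Fin (n - 2 * a - dg R) → k, (J T (mon b) : ℂ) * F α S m (mon e ^ 2 * (∏ P ∈ R, P) * mon b)‖ ≤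
        (Fintype.card k : ℝ) ^ (n - a₀) * B := by
      intro e R hR
      obtain ⟨hR1, hR2⟩ := mem_filter.1 hR
      have hRS : R ⊆ S := mem_powerset.1 hR1
      have hRP : ∀ P ∈ R, Pr P := fun P hP => hSP P (hRS hP)
      have hW : mon e ^ 2 * (∏ P ∈ R, P) ≠ 0 := mul_ne_zero (pow_ne_zero _ (mon_ne e)) (prod_ne hRP)
      have hWd : (mon e ^ 2 * (∏ P ∈ R, P)).natDegree = 2 * a + dg R := by
        rw [natDegree_mul (pow_ne_zero _ (mon_ne e)) (prod_ne hRP), natDegree_pow, mon_natDegree, prod_deg hRP]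
      by_cases hcase : a ≤ a₀
      · have h3 := Z_pois hpois hvan h2 (α := α) hSP hT hS hc (W := mon e ^ 2 * (∏ P ∈ R, P)) (L := n + m + κ)
          (n - 2 * a - dg R) m hm (by rw [hWd]; omega)
        have h4 : Real.sqrt (Fintype.card k) ^ κ * (Fintype.card k : ℝ) ^ m ≤
            (Fintype.card k : ℝ) ^ (n - 2 * a₀) * Real.sqrt (Fintype.card k) ^ m := by
          have e1 : (Fintype.card k : ℝ) ^ m = Real.sqrt (Fintype.card k) ^ m * Real.sqrt (Fintype.card k) ^ m := by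
            rw [← mul_pow, Real.mul_self_sqrt (Nat.cast_nonneg _)]
          have e2 : (Fintype.card k : ℝ) ^ (n - 2 * a₀) = Real.sqrt (Fintype.card k) ^ (2 * (n - 2 * a₀)) := by
            rw [pow_mul, sqrt_sq]
          rw [e1, e2, ← mul_assoc, ← pow_add]
          exact mul_le_mul_of_nonneg_right (pow_le_pow_right₀ hqs (by omega)) (by positivity)
        have h5 : (Fintype.card k : ℝ) ^ a * (Fintype.card k : ℝ) ^ (n - 2 * a₀) ≤ (Fintype.card k : ℝ) ^ (n - a₀) := by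
          rw [← pow_add]
          exact pow_le_pow_right₀ hq1 (by omega)
        have hK := KK_nonneg κ d (n + m + κ)
        calc _ ≤ (Fintype.card k : ℝ) ^ a * (Real.sqrt (Fintype.card k) ^ κ * (Fintype.card k : ℝ) ^ m * KK κ d (n + m + κ)) :=
              mul_le_mul_of_nonneg_left h3 (by positivity)
          _ ≤ (Fintype.card k : ℝ) ^ a * ((Fintype.card k : ℝ) ^ (n - 2 * a₀) * Real.sqrt (Fintype.card k) ^ m *
                KK κ d (n + m + κ)) :=
              mul_le_mul_of_nonneg_left (mul_le_mul_of_nonneg_right h4 hK) (by positivity)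
          _ = ((Fintype.card k : ℝ) ^ a * (Fintype.card k : ℝ) ^ (n - 2 * a₀)) * B := by
              rw [hBdef]
              ring
          _ ≤ _ := mul_le_mul_of_nonneg_right h5 hB0
      · have h3 := Z_triv h2 (α := α) (T := T) hS hc hW (L := n + m + κ) (ν := n - 2 * a - dg R) (by rw [hWd]; omega) m hm
        rw [← hBdef] at h3
        have h5 : (Fintype.card k : ℝ) ^ a * (Fintype.card k : ℝ) ^ (n - 2 * a - dg R) ≤ (Fintype.card k : ℝ) ^ (n - a₀) := by
          rw [← pow_add]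
          exact pow_le_pow_right₀ hq1 (by omega)
        calc _ ≤ (Fintype.card k : ℝ) ^ a * ((Fintype.card k : ℝ) ^ (n - 2 * a - dg R) * B) :=
              mul_le_mul_of_nonneg_left h3 (by positivity)
          _ = ((Fintype.card k : ℝ) ^ a * (Fintype.card k : ℝ) ^ (n - 2 * a - dg R)) * B := by ring
          _ ≤ _ := mul_le_mul_of_nonneg_right h5 hB0
    have hqa : (0 : ℝ) < (Fintype.card k : ℝ) ^ a := by positivity
    rw [← hBdef]
    have h6 : ∀ e : Fin a → k, ∑ R ∈ S.powerset.filter (fun R => dg R ≤ n - 2 * a),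
        ‖∑ b : Fin (n - 2 * a - dg R) → k, (J T (mon b) : ℂ) * F α S m (mon e ^ 2 * (∏ P ∈ R, P) * mon b)‖ ≤
        2 ^ κ * ((Fintype.card k : ℝ) ^ (n - a₀) * B / (Fintype.card k : ℝ) ^ a) := by
      intro e
      refine (sum_le_card_nsmul _ _ _ fun R hR => ((le_div_iff₀' hqa).2 (hterm e R hR))).trans ?_
      rw [nsmul_eq_mul]
      exact mul_le_mul_of_nonneg_right (card_pow hSP hS _) (by positivity)
    refine (sum_le_card_nsmul _ _ _ fun e _ => h6 e).trans ?_
    rw [card_univ, Fintype.card_fun, Fintype.card_fin, nsmul_eq_mul]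
    push_cast
    rw [mul_left_comm, mul_div_cancel₀ _ hqa.ne']
  refine (sum_le_card_nsmul _ _ _ hB).trans ?_
  rw [card_range, nsmul_eq_mul]
  refine mul_le_mul_of_nonneg_right ?_ ?_
  · have : n / 2 + 1 ≤ n + 1 := by omega
    exact_mod_cast this
  · have := KK_nonneg κ d (n + m + κ)
    positivity

/-- the sum of the symbol over squarefree polynomials -/
theorem XX_one (hsqf : S_sqf) (hcop : S_cop) (hvan : S_van) (h2 : (2 : k) ≠ 0)
    {S T : Finset k[X]} (hSP : ∀ P ∈ S, Pr P) (hT : T ⊆ S) (hT0 : T.Nonempty) {κ : ℕ} (hS : dg S ≤ κ) (n : ℕ) :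
    ‖XX S T n (fun _ => 1)‖ ≤ (n + 1) * (2 ^ κ * (Fintype.card k : ℝ) ^ (n / 2 + κ)) := by
  classical
  have hq1 : (1 : ℝ) ≤ Fintype.card k := by exact_mod_cast (by have := three_le h2; omega : 1 ≤ Fintype.card k)
  refine (expand hsqf hcop hSP hT n _).trans ?_
  have hTκ : dg T ≤ κ := (dg_mono hT).trans hS
  have hB : ∀ a ∈ range (n / 2 + 1), ∑ e : Fin a → k, ∑ R ∈ S.powerset.filter (fun R => dg R ≤ n - 2 * a),
      ‖∑ b : Fin (n - 2 * a - dg R) → k, (J T (mon b) : ℂ) * 1‖ ≤ 2 ^ κ * (Fintype.card k : ℝ) ^ (n / 2 + κ) := by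
    intro a ha
    rw [mem_range] at ha
    have hterm : ∀ e : Fin a → k, ∀ R ∈ S.powerset.filter (fun R => dg R ≤ n - 2 * a),
        ‖∑ b : Fin (n - 2 * a - dg R) → k, (J T (mon b) : ℂ) * 1‖ ≤ (Fintype.card k : ℝ) ^ κ := by
      intro e R hR
      simp only [mul_one]
      by_cases hν : dg T ≤ n - 2 * a - dg R
      · rw [hvan k h2 T (fun P hP => hSP P (hT hP)) hT0 _ hν, norm_zero]
        positivity
      · refine (norm_sum_le _ _).trans ((sum_le_card_nsmul _ _ 1 fun b _ => J_norm _ _).trans ?_)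
        rw [card_univ, Fintype.card_fun, Fintype.card_fin, nsmul_eq_mul, mul_one]
        push_cast
        exact pow_le_pow_right₀ hq1 (by omega)
    have h6 : ∀ e : Fin a → k, ∑ R ∈ S.powerset.filter (fun R => dg R ≤ n - 2 * a),
        ‖∑ b : Fin (n - 2 * a - dg R) → k, (J T (mon b) : ℂ) * 1‖ ≤ 2 ^ κ * (Fintype.card k : ℝ) ^ κ := by
      intro e
      refine (sum_le_card_nsmul _ _ _ fun R hR => hterm e R hR).trans ?_
      rw [nsmul_eq_mul]
      exact mul_le_mul_of_nonneg_right (card_pow hSP hS _) (by positivity)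
    refine (sum_le_card_nsmul _ _ _ fun e _ => h6 e).trans ?_
    rw [card_univ, Fintype.card_fun, Fintype.card_fin, nsmul_eq_mul]
    push_cast
    rw [mul_left_comm, ← pow_add]
    exact mul_le_mul_of_nonneg_left (pow_le_pow_right₀ hq1 (by omega)) (by positivity)
  refine (sum_le_card_nsmul _ _ _ hB).trans ?_
  rw [card_range, nsmul_eq_mul]
  refine mul_le_mul_of_nonneg_right ?_ (by positivity)
  have : n / 2 + 1 ≤ n + 1 := by omega
  exact_mod_cast this

end

end Q282TW
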