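import Pool.Agent.Q282.TW.Stm

/-!
# Twists of `L`-functions over `k(T)` by quadratic characters: definitions
-/

set_option autoImplicit false

open Polynomial

namespace Q282TW

/-- Let `α P i`, `i < d`, be the inverse roots of the Euler factors of an `L`-function over `k(T)` at the finite places `P`,
normalised such that they have absolute value at most one: the `L`-function is `∏ (1 - α P i q_P ^ (1 / 2 - s))⁻¹` with `q_P` the
number of elements of the residue field. The numbers `β j`, of absolute value one, are the inverse zeros divided by `q` of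
the twist of this `L`-function by the quadratic character which belongs to the square root of `D`: the twist is
`∏ (1 - β j q ^ (1 - s))`, and its Euler factors have the inverse roots `leg P D * α P i` at the `P` which do not divide `D`, some
inverse roots `δ P i` at the divisors of `D`, and `γ i` at the infinite place. The equality is written for the coefficients of the
logarithms. -/
def IsTwist {k : Type} [Field k] [Fintype k] {d : ℕ} (α : k[X] → Fin d → ℂ) (D : k[X]) {N : ℕ} (β : Fin N → ℂ) : Prop :=
  (∀ j, ‖β j‖ = 1) ∧ ∃ (γ : Fin d → ℂ) (δ : k[X] → Fin d → ℂ), (∀ i, ‖γ i‖ ≤ 1) ∧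
    (∀ P, Pr P → (∀ i, ‖δ P i‖ ≤ 1) ∧ (¬ P ∣ D → ∀ i, δ P i = leg P D * α P i)) ∧
    ∀ m : ℕ, 1 ≤ m → -((Real.sqrt (Fintype.card k) : ℂ) ^ m * ∑ j, β j ^ m) =
      ∑ i, γ i ^ m + ∑ᶠ P ∈ {P : k[X] | Pr P ∧ P.natDegree ∣ m}, (P.natDegree : ℂ) * ∑ i, δ P i ^ (m / P.natDegree)

open Classical in
/-- the order of vanishing of `∏ (1 - β j q ^ (1 - s))` at `s = 1` -/
noncomputable def order {N : ℕ} (β : Fin N → ℂ) : ℕ := (Finset.univ.filter fun j => β j = 1).card

end Q282TW
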