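import Pool.Agent.Q282.TW.ClA

/-!
# The choice of the parameters
-/

set_option autoImplicit false
set_option linter.unusedSectionVars false

namespace Q282TW

open Finset Filter Topology

/-- the parameter -/
def a0 (n : ℕ) : ℕ := 3 * (Nat.log 3 n + 1)

/-- the length -/
def MM (κ n : ℕ) : ℕ := 2 * n - 4 * a0 n - κ

lemma sq_le_three (L : ℕ) : L ^ 2 ≤ 3 ^ L := by
  induction L with
  | zero => norm_num
  | succ L ih =>
    rcases Nat.eq_zero_or_pos L with h | h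
    · rw [h]
      norm_num
    · rw [pow_succ 3 L]
      have h3 : L < 3 ^ L := Nat.lt_pow_self (by norm_num)
      nlinarith

lemma log_tendsto : Tendsto (fun n : ℕ => (Nat.log 3 n : ℝ) / n) atTop (𝓝 0) := by
  have h1 : Tendsto (fun n : ℕ => (Real.sqrt (n : ℝ))⁻¹) atTop (𝓝 0) :=
    tendsto_inv_atTop_zero.comp (Real.tendsto_sqrt_atTop.comp tendsto_natCast_atTop_atTop)
  refine squeeze_zero' (Eventually.of_forall fun n => by positivity) ?_ h1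
  filter_upwards [eventually_ge_atTop 1] with n hn
  have hn0 : (0 : ℝ) < n := by exact_mod_cast hn
  have h2 : (Nat.log 3 n) ^ 2 ≤ n := (sq_le_three _).trans (Nat.pow_log_le_self 3 (by omega))
  have h3 : (Nat.log 3 n : ℝ) ≤ Real.sqrt n := Real.le_sqrt_of_sq_le (by exact_mod_cast h2)
  have h4 : 0 < Real.sqrt (n : ℝ) := Real.sqrt_pos.2 hn0
  rw [div_le_iff₀ hn0]
  calc (Nat.log 3 n : ℝ) ≤ Real.sqrt n := h3
    _ = (Real.sqrt n)⁻¹ * n := by
      rw [eq_inv_mul_iff_mul_eq₀ h4.ne', Real.mul_self_sqrt hn0.le]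

lemma a0_tendsto (κ : ℕ) : Tendsto (fun n : ℕ => ((4 * a0 n + κ : ℕ) : ℝ) / n) atTop (𝓝 0) := by
  have h1 : Tendsto (fun n : ℕ => 12 * ((Nat.log 3 n : ℝ) / n) + (12 + κ) * ((1 : ℝ) / n)) atTop (𝓝 (12 * 0 + (12 + κ) * 0)) :=
    (log_tendsto.const_mul 12).add (tendsto_one_div_atTop_nhds_zero_nat.const_mul _)
  rw [mul_zero, mul_zero, add_zero] at h1
  refine h1.congr fun n => ?_
  unfold a0
  push_cast
  ring

lemma MM_tendsto (κ : ℕ) : Tendsto (fun n : ℕ => (MM κ n : ℝ) / n) atTop (𝓝 2) := by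
  have h1 : Tendsto (fun n : ℕ => 2 - ((4 * a0 n + κ : ℕ) : ℝ) / n) atTop (𝓝 (2 - 0)) := tendsto_const_nhds.sub (a0_tendsto κ)
  rw [sub_zero] at h1
  refine h1.congr' ?_
  filter_upwards [eventually_ge_atTop 1, (a0_tendsto κ).eventually_lt_const (show (0 : ℝ) < 1 by norm_num)] with n hn h2
  have hn0 : (0 : ℝ) < n := by exact_mod_cast hn
  rw [div_lt_one hn0] at h2
  have h3 : 4 * a0 n + κ < n := by exact_mod_cast h2
  unfold MM
  rw [show 2 * n - 4 * a0 n - κ = 2 * n - (4 * a0 n + κ) by omega, Nat.cast_sub (by omega)]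
  push_cast
  field_simp

theorem lim (d κ : ℕ) {ε : ℝ} (hε : 0 < ε) : ∃ n₀ : ℕ, ∀ n, n₀ ≤ n →
    4 * a0 n + κ + 1 ≤ 2 * n ∧ (κ + d * n : ℝ) / MM κ n ≤ d / 2 + ε ∧
      (n + 1 : ℝ) * 2 ^ κ * KK κ d (3 * n + κ) ≤ ε * (n : ℝ) ^ 3 ∧ 20 * (6 * d + d * κ + κ : ℝ) ≤ ε * MM κ n ∧
      (n + 1 : ℝ) * 2 ^ κ ≤ ε * (3 / 2) ^ (n - 2 * κ) ∧ 2 * κ ≤ n := by
  have hM := MM_tendsto κ
  -- the first
  have e1 : ∀ᶠ n : ℕ in atTop, 4 * a0 n + κ + 1 ≤ 2 * n := by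
    filter_upwards [eventually_ge_atTop 1, (a0_tendsto κ).eventually_lt_const (show (0 : ℝ) < 1 by norm_num)] with n hn h2
    have hn0 : (0 : ℝ) < n := by exact_mod_cast hn
    rw [div_lt_one hn0] at h2
    have h3 : 4 * a0 n + κ < n := by exact_mod_cast h2
    omega
  have e2 : ∀ᶠ n : ℕ in atTop, (κ + d * n : ℝ) / MM κ n ≤ d / 2 + ε := by
    have h1 : Tendsto (fun n : ℕ => ((κ : ℝ) * (1 / n) + d) / ((MM κ n : ℝ) / n)) atTop (𝓝 ((κ * 0 + d) / 2)) :=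
      ((tendsto_one_div_atTop_nhds_zero_nat.const_mul _).add tendsto_const_nhds).div hM (by norm_num)
    rw [mul_zero, zero_add] at h1
    filter_upwards [h1.eventually_lt_const (show (d : ℝ) / 2 < d / 2 + ε by linarith), eventually_ge_atTop 1] with n hn h2
    refine le_trans (le_of_eq ?_) hn.le
    have hn0 : (n : ℝ) ≠ 0 := by
      have : (0 : ℝ) < n := by exact_mod_cast h2
      exact this.ne'
    rw [div_div_eq_mul_div]
    congr 1
    field_simp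
  have e3 : ∀ᶠ n : ℕ in atTop, (n + 1 : ℝ) * 2 ^ κ * KK κ d (3 * n + κ) ≤ ε * (n : ℝ) ^ 3 := by
    obtain ⟨C, hC⟩ : ∃ C : ℝ, C = κ + 3 * d + d * κ + 2 * d * (3 + κ) := ⟨_, rfl⟩
    have hC0 : 0 ≤ C := by
      rw [hC]
      positivity
    filter_upwards [eventually_ge_atTop 1, eventually_ge_atTop (⌈2 * 2 ^ κ * C / ε⌉₊)] with n hn h2
    have hn1 : (1 : ℝ) ≤ n := by exact_mod_cast hn
    have h3 : 2 * 2 ^ κ * C / ε ≤ n := (Nat.le_ceil _).trans (by exact_mod_cast h2)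
    rw [div_le_iff₀ hε] at h3
    have h4 : KK κ d (3 * n + κ) ≤ C * n := by
      unfold KK
      rw [hC]
      push_cast
      have a1 : (κ : ℝ) ≤ κ * n := le_mul_of_one_le_right (Nat.cast_nonneg _) hn1
      have a2 : (3 * d : ℝ) ≤ 3 * d * n := le_mul_of_one_le_right (by positivity) hn1
      have a3 : (d * κ : ℝ) ≤ d * κ * n := le_mul_of_one_le_right (by positivity) hn1
      have a4 : (2 * d * κ : ℝ) ≤ 2 * d * κ * n := le_mul_of_one_le_right (by positivity) hn1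
      nlinarith
    have hK := KK_nonneg κ d (3 * n + κ)
    calc (n + 1 : ℝ) * 2 ^ κ * KK κ d (3 * n + κ) ≤ (2 * n) * 2 ^ κ * (C * n) :=
          mul_le_mul (mul_le_mul_of_nonneg_right (by linarith) (by positivity)) h4 hK (by positivity)
      _ = (2 * 2 ^ κ * C) * n ^ 2 := by ring
      _ ≤ (n * ε) * n ^ 2 := mul_le_mul_of_nonneg_right h3 (by positivity)
      _ = _ := by ring
  have e4 : ∀ᶠ n : ℕ in atTop, 20 * (6 * d + d * κ + κ : ℝ) ≤ ε * MM κ n := by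
    have h1 : Tendsto (fun n : ℕ => (MM κ n : ℝ)) atTop atTop := by
      have h2 : Tendsto (fun n : ℕ => (MM κ n : ℝ) / n * n) atTop atTop :=
        hM.pos_mul_atTop (by norm_num) tendsto_natCast_atTop_atTop
      refine h2.congr' ?_
      filter_upwards [eventually_ge_atTop 1] with n hn
      have : (0 : ℝ) < n := by exact_mod_cast hn
      field_simp
    filter_upwards [h1.eventually_ge_atTop (20 * (6 * d + d * κ + κ : ℝ) / ε)] with n hn
    rw [div_le_iff₀' hε] at hn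
    exact hn
  have e5 : ∀ᶠ n : ℕ in atTop, (n + 1 : ℝ) * 2 ^ κ ≤ ε * (3 / 2) ^ (n - 2 * κ) ∧ 2 * κ ≤ n := by
    have h1 : Tendsto (fun n : ℕ => (n : ℝ) * (2 / 3 : ℝ) ^ n) atTop (𝓝 0) :=
      tendsto_self_mul_const_pow_of_lt_one (by norm_num) (by norm_num)
    have h2 : (0 : ℝ) < ε / (2 * 2 ^ κ * (3 / 2) ^ (2 * κ)) := by positivity
    filter_upwards [eventually_ge_atTop 1, eventually_ge_atTop (2 * κ), h1.eventually_lt_const h2] with n hn hn2 h3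
    refine ⟨?_, hn2⟩
    have hn1 : (1 : ℝ) ≤ n := by exact_mod_cast hn
    rw [lt_div_iff₀ (by positivity)] at h3
    have h4 : (3 / 2 : ℝ) ^ n = (3 / 2) ^ (n - 2 * κ) * (3 / 2) ^ (2 * κ) := by
      rw [← pow_add, Nat.sub_add_cancel hn2]
    have h5 : (2 / 3 : ℝ) ^ n * (3 / 2) ^ n = 1 := by
      rw [← mul_pow]
      norm_num
    have h6 : 0 < (3 / 2 : ℝ) ^ n := by positivity
    have h7 : (0 : ℝ) < (3 / 2 : ℝ) ^ (2 * κ) := by positivity
    have h8 : (n * (2 / 3 : ℝ) ^ n * (2 * 2 ^ κ * (3 / 2) ^ (2 * κ))) * (3 / 2) ^ n < ε * (3 / 2) ^ n := mul_lt_mul_of_pos_right h3 h6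
    have h9 : n * (2 * 2 ^ κ * (3 / 2 : ℝ) ^ (2 * κ)) < (ε * (3 / 2) ^ (n - 2 * κ)) * (3 / 2) ^ (2 * κ) := by
      calc n * (2 * 2 ^ κ * (3 / 2 : ℝ) ^ (2 * κ)) = (n * (2 * 2 ^ κ * (3 / 2) ^ (2 * κ))) * ((2 / 3 : ℝ) ^ n * (3 / 2) ^ n) := by
            rw [h5, mul_one]
        _ = (n * (2 / 3 : ℝ) ^ n * (2 * 2 ^ κ * (3 / 2) ^ (2 * κ))) * (3 / 2) ^ n := by ring
        _ < _ := h8
        _ = _ := by
          rw [h4]
          ring
    have h10 : n * (2 * 2 ^ κ) < ε * (3 / 2 : ℝ) ^ (n - 2 * κ) := by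
      refine lt_of_mul_lt_mul_right ?_ h7.le
      calc n * (2 * 2 ^ κ) * (3 / 2 : ℝ) ^ (2 * κ) = n * (2 * 2 ^ κ * (3 / 2 : ℝ) ^ (2 * κ)) := by ring
        _ < _ := h9
    have h11 : (n + 1 : ℝ) * 2 ^ κ ≤ n * (2 * 2 ^ κ) := by
      have : (0 : ℝ) < 2 ^ κ := by positivity
      nlinarith
    linarith
  obtain ⟨n₀, h⟩ := eventually_atTop.1 (((((e1.and e2).and e3).and e4).and e5))
  refine ⟨n₀, fun n hn => ?_⟩
  obtain ⟨⟨⟨⟨h1, h2⟩, h3⟩, h4⟩, h5, h6⟩ := h n hn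
  exact ⟨h1, h2, h3, h4, h5, h6⟩

lemma three_pow_a0 (n : ℕ) : n ^ 3 ≤ 3 ^ a0 n := by
  unfold a0
  rw [mul_comm, pow_mul]
  exact Nat.pow_le_pow_left (Nat.lt_pow_succ_log_self (by norm_num) n).le 3

end Q282TW
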