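import Pool.Agent.Q282.TW.Thm
import Pool.Agent.Q282.TW.Avg
import Pool.Agent.Q282.TW.Lim

/-!
# The average of the order over the family
-/

set_option autoImplicit false
set_option linter.unusedSectionVars false

namespace Q282TW

open Polynomial Finset
open Pool.Agent.TH180.RT (Pd mem_Pd card_Pd_real fejer_bound)

section

variable {k : Type} [Field k] [Fintype k]

lemma J_pm {S T : Finset k[X]} (hT : T ⊆ S) {n : ℕ} {c : Fin n → k} (hc : c ∈ Fam n S) : J T (mon c) = 1 ∨ J T (mon c) = -1 := by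
  classical
  unfold Fam at hc
  rw [mem_filter] at hc
  exact J_cases fun P hP => hc.2.2 P (hT hP)

/-- sums over the members with a given symbol -/
lemma sum_FamS {S T : Finset k[X]} (hT : T ⊆ S) (n : ℕ) {w : ℤ} (hw : w = 1 ∨ w = -1) (g : k[X] → ℂ) :
    ∑ c ∈ FamS n S T w, g (mon c) = (XX S ∅ n g + w * XX S T n g) / 2 := by
  classical
  have h1 : ∀ T' : Finset k[X], XX S T' n g = ∑ c ∈ Fam n S, (J T' (mon c) : ℂ) * g (mon c) := by
    intro T'
    unfold XX Fam
    rw [sum_filter]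
  rw [h1, h1]
  have h2 : ∑ c ∈ FamS n S T w, g (mon c) = ∑ c ∈ Fam n S, if J T (mon c) = w then g (mon c) else 0 := by
    unfold FamS
    rw [sum_filter]
  rw [h2, mul_sum, ← sum_add_distrib, sum_div]
  refine sum_congr rfl fun c hc => ?_
  rw [J_empty]
  rcases hw with hw | hw <;> rcases J_pm hT hc with hj | hj <;> rw [hj, hw] <;> norm_num

lemma card_FamS {S T : Finset k[X]} (hT : T ⊆ S) (n : ℕ) {w : ℤ} (hw : w = 1 ∨ w = -1) :
    |((FamS n S T w).card : ℝ) - (Fam n S).card / 2| ≤ ‖XX S T n (fun _ => 1)‖ / 2 := by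
  classical
  have h1 := sum_FamS hT n hw (fun _ => (1 : ℂ))
  have h2 : XX S ∅ n (fun _ => (1 : ℂ)) = (Fam n S).card := by
    unfold XX Fam
    rw [← sum_filter]
    simp [J_empty]
  rw [h2, sum_const, nsmul_eq_mul, mul_one] at h1
  have h3 : (((FamS n S T w).card : ℝ) - (Fam n S).card / 2 : ℝ) = ((w : ℂ) * XX S T n (fun _ => 1) / 2).re := by
    have : (((((FamS n S T w).card : ℝ) - (Fam n S).card / 2 : ℝ) : ℝ) : ℂ) = (w : ℂ) * XX S T n (fun _ => 1) / 2 := by
      push_cast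
      rw [h1]
      ring
    rw [← this, Complex.ofReal_re]
  rw [h3]
  refine (Complex.abs_re_le_norm _).trans ?_
  rw [norm_div, norm_mul]
  have h4 : ‖(w : ℂ)‖ = 1 := by
    rcases hw with hw | hw <;> rw [hw] <;> simp
  rw [h4, one_mul]
  simp

lemma ctl_of {d κ : ℕ} {α : k[X] → Fin d → ℂ} {N : k[X] → ℕ} {β : (D : k[X]) → Fin (N D) → ℂ}
    (h : ∀ D, D ≠ 0 → N D ≤ κ + d * D.natDegree ∧ IsTwist α D (β D)) : Ctl κ α :=
  fun W hW => ⟨N W, β W, h W hW⟩

lemma sec_of [DecidableEq k] {d κ : ℕ} {α : k[X] → Fin d → ℂ} {ρ : ℝ}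
    (h : ∀ j : ℕ, 1 ≤ j → -(∑ᶠ P ∈ {P : k[X] | Pr P ∧ P.natDegree = j}, (j : ℂ) * ∑ i, α P i ^ 2).re ≤
      ρ * (Fintype.card k : ℝ) ^ j + κ * Real.sqrt (Fintype.card k) ^ j) : Sec ρ κ α := by
  intro j hj
  have h1 := h j hj
  have hset : {P : k[X] | Pr P ∧ P.natDegree = j} = ((Pd k j : Finset k[X]) : Set k[X]) := by
    apply Set.ext
    intro P
    rw [Set.mem_ofPred_eq, Finset.mem_coe, mem_Pd]
    unfold Pr
    tauto
  rw [hset, finsum_mem_coe_finset] at h1
  exact h1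

end

/-- **The average order.** -/
theorem average (hsqf : S_sqf) (hcop : S_cop) (hpois : S_pois) (hvan : S_van) (hcnt : S_cnt) : Average := by
  classical
  intro d κ ε hε
  obtain ⟨c₁, n₁, hc₁, hcn⟩ := hcnt κ
  obtain ⟨n₂, hn₂⟩ := lim d κ (ε := ε / 3 * min c₁ 1) (by positivity)
  have hlim := hn₂
  refine ⟨max (max n₁ n₂) 1, fun k _ _ h2 ρ hρ α S N β hD T hT w hw n hn => ?_⟩
  obtain ⟨hα, hSP, hSκ, hβ, hsec0⟩ := hD
  have hn1 : n₁ ≤ n := le_trans (le_trans (le_max_left _ _) (le_max_left _ _)) hn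
  have hn2 : n₂ ≤ n := le_trans (le_trans (le_max_right _ _) (le_max_left _ _)) hn
  have hn3 : 1 ≤ n := le_trans (le_max_right _ _) hn
  obtain ⟨l1, l2, l3, l4, l5, l6⟩ := hlim n hn2
  have hV : c₁ * (Fintype.card k : ℝ) ^ n ≤ (Fam n S).card := hcn k h2 S hSP hSκ n hn1
  obtain ⟨ε', hε'⟩ : ∃ ε' : ℝ, ε' = ε / 3 * min c₁ 1 := ⟨_, rfl⟩
  rw [← hε'] at l2 l3 l4 l5
  have hε1 : ε' ≤ ε / 3 := by
    rw [hε']
    exact mul_le_of_le_one_right (by positivity) (min_le_right _ _)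
  have hε2 : ε' * (Fintype.card k : ℝ) ^ n ≤ ε / 3 * (Fam n S).card := by
    rw [hε']
    have : min c₁ 1 * (Fintype.card k : ℝ) ^ n ≤ (Fam n S).card :=
      le_trans (mul_le_mul_of_nonneg_right (min_le_left _ _) (by positivity)) hV
    calc ε / 3 * min c₁ 1 * (Fintype.card k : ℝ) ^ n = ε / 3 * (min c₁ 1 * (Fintype.card k : ℝ) ^ n) := by ring
      _ ≤ _ := mul_le_mul_of_nonneg_left this (by positivity)
  have hε0 : 0 < ε' := by
    rw [hε']
    positivity
  have hq3 : (3 : ℝ) ≤ Fintype.card k := by exact_mod_cast three_le h2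
  have hq0 : (0 : ℝ) < Fintype.card k := by linarith
  have hs1 := sqrt_ge h2
  have hc := ctl_of hβ
  have hsec := sec_of hsec0
  have hV0 : (0 : ℝ) ≤ (Fam n S).card := Nat.cast_nonneg _
  refine ⟨?_, fun hT0 => ?_⟩
  · have hM1 : 1 ≤ MM κ n := by
      unfold MM
      omega
    have hM0 : (0 : ℝ) < MM κ n := by exact_mod_cast hM1
    obtain ⟨E, hE⟩ : ∃ E : ℝ, E = (n + 1) * (2 ^ κ * ((Fintype.card k : ℝ) ^ (n - a0 n) * KK κ d (3 * n + κ))) := ⟨_, rfl⟩
    have hK := KK_nonneg κ d (3 * n + κ)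
    have hE0 : 0 ≤ E := by
      rw [hE]
      positivity
    -- the sums of the traces
    have hF : ∀ m ∈ Ico 1 (MM κ n), |∑ c ∈ FamS n S T w, (F α S m (mon c)).re| ≤ E * Real.sqrt (Fintype.card k) ^ m := by
      intro m hm
      rw [mem_Ico] at hm
      have hmM : m + 4 * a0 n + κ ≤ 2 * n := by
        have := hm.2
        unfold MM at this
        omega
      have hb : ∀ T' : Finset k[X], T' ⊆ S → ‖XX S T' n (F α S m)‖ ≤ E * Real.sqrt (Fintype.card k) ^ m := by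
        intro T' hT'
        refine (XX_F hsqf hcop hpois hvan h2 hSP hT' hSκ hc hm.1 hmM).trans ?_
        have h3 : KK κ d (n + m + κ) ≤ KK κ d (3 * n + κ) := KK_mono κ d (by omega)
        rw [hE]
        calc (n + 1 : ℝ) * (2 ^ κ * ((Fintype.card k : ℝ) ^ (n - a0 n) * (Real.sqrt (Fintype.card k) ^ m * KK κ d (n + m + κ)))) =
              ((n + 1 : ℝ) * 2 ^ κ * (Fintype.card k : ℝ) ^ (n - a0 n) * Real.sqrt (Fintype.card k) ^ m) * KK κ d (n + m + κ) := by ring
          _ ≤ ((n + 1 : ℝ) * 2 ^ κ * (Fintype.card k : ℝ) ^ (n - a0 n) * Real.sqrt (Fintype.card k) ^ m) * KK κ d (3 * n + κ) :=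
              mul_le_mul_of_nonneg_left h3 (by positivity)
          _ = _ := by ring
      rw [← Complex.re_sum]
      refine (Complex.abs_re_le_norm _).trans ?_
      rw [sum_FamS hT n hw (F α S m), norm_div]
      have e1 := hb ∅ (empty_subset _)
      have e2 := hb T hT
      have e3 : ‖XX S ∅ n (F α S m) + w * XX S T n (F α S m)‖ ≤ E * Real.sqrt (Fintype.card k) ^ m + E * Real.sqrt (Fintype.card k) ^ m := by
        refine (norm_add_le _ _).trans (add_le_add e1 ?_)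
        rw [norm_mul]
        have h4 : ‖(w : ℂ)‖ = 1 := by
          rcases hw with hw | hw <;> rw [hw] <;> simp
        rw [h4, one_mul]
        exact e2
      have e4 : ‖(2 : ℂ)‖ = 2 := by simp
      rw [e4, div_le_iff₀ (by norm_num)]
      linarith
    have hUF : ∀ c ∈ FamS n S T w, N (mon c) ≤ κ + d * n ∧ IsTwist α (mon c) (β (mon c)) := by
      intro c _
      have := hβ (mon c) (mon_ne c)
      rw [mon_natDegree] at this
      exact this
    have hav := avg h2 hα hSκ hρ hsec (FamS n S T w) hUF hM1 hE0 hF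
    refine hav.trans ?_
    -- the error terms
    have hEb : E ≤ ε' * (Fintype.card k : ℝ) ^ n := by
      have h3 : (n : ℝ) ^ 3 ≤ (Fintype.card k : ℝ) ^ a0 n := by
        have h4 : (n : ℝ) ^ 3 ≤ (3 : ℝ) ^ a0 n := by exact_mod_cast three_pow_a0 n
        exact h4.trans (pow_le_pow_left₀ (by norm_num) hq3 _)
      have h5 : (Fintype.card k : ℝ) ^ (n - a0 n) * (Fintype.card k : ℝ) ^ a0 n = (Fintype.card k : ℝ) ^ n := by
        rw [← pow_add, Nat.sub_add_cancel (by omega)]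
      have h6 : (n + 1 : ℝ) * 2 ^ κ * KK κ d (3 * n + κ) ≤ ε' * (Fintype.card k : ℝ) ^ a0 n :=
        l3.trans (mul_le_mul_of_nonneg_left h3 hε0.le)
      rw [hE]
      calc (n + 1 : ℝ) * (2 ^ κ * ((Fintype.card k : ℝ) ^ (n - a0 n) * KK κ d (3 * n + κ))) =
            ((n + 1 : ℝ) * 2 ^ κ * KK κ d (3 * n + κ)) * (Fintype.card k : ℝ) ^ (n - a0 n) := by ring
        _ ≤ (ε' * (Fintype.card k : ℝ) ^ a0 n) * (Fintype.card k : ℝ) ^ (n - a0 n) :=
            mul_le_mul_of_nonneg_right h6 (by positivity)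
        _ = ε' * ((Fintype.card k : ℝ) ^ (n - a0 n) * (Fintype.card k : ℝ) ^ a0 n) := by ring
        _ = _ := by rw [h5]
    have hEc : 20 * (6 * d + d * κ + κ) * (Fintype.card k : ℝ) ^ n / MM κ n ≤ ε' * (Fintype.card k : ℝ) ^ n := by
      rw [div_le_iff₀ hM0]
      calc 20 * (6 * d + d * κ + κ) * (Fintype.card k : ℝ) ^ n ≤ (ε' * MM κ n) * (Fintype.card k : ℝ) ^ n :=
            mul_le_mul_of_nonneg_right l4 (by positivity)
        _ = _ := by ring
    have hsub : ((FamS n S T w).card : ℝ) ≤ (Fam n S).card := by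
      exact_mod_cast card_le_card (filter_subset _ _)
    have hU0 : (0 : ℝ) ≤ (FamS n S T w).card := Nat.cast_nonneg _
    have h7 : ((FamS n S T w).card : ℝ) * ((κ + d * n) / MM κ n + ρ / 2) ≤ (FamS n S T w).card * (d / 2 + ε' + ρ / 2) :=
      mul_le_mul_of_nonneg_left (by linarith) hU0
    have h8 : ((FamS n S T w).card : ℝ) * ε' ≤ (Fam n S).card * (ε / 3) :=
      mul_le_mul hsub hε1 hε0.le hV0
    calc _ ≤ (FamS n S T w).card * (d / 2 + ε' + ρ / 2) + ε' * (Fintype.card k : ℝ) ^ n + ε' * (Fintype.card k : ℝ) ^ n := by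
          linarith
      _ ≤ (d + ρ) / 2 * (FamS n S T w).card + (Fam n S).card * (ε / 3) + ε / 3 * (Fam n S).card + ε / 3 * (Fam n S).card := by
          have e9 : ((FamS n S T w).card : ℝ) * (d / 2 + ε' + ρ / 2) = (d + ρ) / 2 * (FamS n S T w).card + (FamS n S T w).card * ε' := by
            ring
          linarith
      _ = _ := by ring
  · have h3 := card_FamS hT n hw
    have h4 := XX_one hsqf hcop hvan h2 hSP hT hT0 hSκ n
    -- the bound for the sum of the symbol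
    obtain ⟨s, hsdef⟩ : ∃ s : ℝ, s = Real.sqrt (Fintype.card k) := ⟨_, rfl⟩
    rw [← hsdef] at hs1
    have hs0 : 0 < s := by linarith
    have hss : s ^ 2 = Fintype.card k := hsdef ▸ sqrt_sq
    have h5 : (n + 1 : ℝ) * (2 ^ κ * (Fintype.card k : ℝ) ^ (n / 2 + κ)) ≤ ε' * (Fintype.card k : ℝ) ^ n := by
      have e1 : (Fintype.card k : ℝ) ^ (n / 2 + κ) ≤ s ^ n * s ^ (2 * κ) := by
        rw [← hss, ← pow_mul, ← pow_add]
        exact pow_le_pow_right₀ (by linarith) (by omega)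
      have e2 : (Fintype.card k : ℝ) ^ n = s ^ n * s ^ (2 * κ) * s ^ (n - 2 * κ) := by
        rw [← hss, ← pow_mul, mul_assoc, ← pow_add, ← pow_add]
        congr 1
        omega
      have e3 : (n + 1 : ℝ) * 2 ^ κ ≤ ε' * s ^ (n - 2 * κ) :=
        l5.trans (mul_le_mul_of_nonneg_left (pow_le_pow_left₀ (by norm_num) hs1 _) hε0.le)
      calc (n + 1 : ℝ) * (2 ^ κ * (Fintype.card k : ℝ) ^ (n / 2 + κ)) = ((n + 1 : ℝ) * 2 ^ κ) * (Fintype.card k : ℝ) ^ (n / 2 + κ) := by ring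
        _ ≤ (ε' * s ^ (n - 2 * κ)) * (s ^ n * s ^ (2 * κ)) := mul_le_mul e3 e1 (by positivity) (by positivity)
        _ = _ := by
          rw [e2]
          ring
    have h6 := (abs_le.1 h3).1
    have h7 : ‖XX S T n (fun _ => 1)‖ ≤ ε / 3 * (Fam n S).card := h4.trans (h5.trans hε2)
    nlinarith

end Q282TW
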