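import Pool.Agent.Q282.TW.Fa

/-!
# Polynomials with coefficients in a field
-/

set_option autoImplicit false
set_option linter.unusedSectionVars false

namespace Q282TW

open Polynomial Finset

lemma rootM {N : ℕ} {β : Fin N → ℂ} (hβ : ∀ j, ‖β j‖ = 1) {q : ℂ} (hq : q ≠ 0) :
    (∏ j, (1 - C (β j * q) * X) : ℂ[X]).rootMultiplicity q⁻¹ = order β := by
  classical
  have hb : ∀ j, β j ≠ 0 := fun j h => by
    have := hβ j
    rw [h, norm_zero] at this
    exact zero_ne_one this
  have h1 : ∀ j, (1 - C (β j * q) * X : ℂ[X]) = C (-(β j * q)) * (X - C ((β j * q)⁻¹)) := by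
    intro j
    have : (β j * q) * (β j * q)⁻¹ = 1 := mul_inv_cancel₀ (mul_ne_zero (hb j) hq)
    rw [mul_sub, ← C_mul, neg_mul, this, C_neg, C_neg, C_1]
    ring
  have h0 : ∀ j, (1 - C (β j * q) * X : ℂ[X]) ≠ 0 := by
    intro j
    rw [h1]
    exact mul_ne_zero (C_ne_zero.2 (neg_ne_zero.2 (mul_ne_zero (hb j) hq))) (X_sub_C_ne_zero _)
  rw [← count_roots, roots_prod _ _ (prod_ne_zero_iff.2 fun j _ => h0 j), Multiset.count_bind]
  unfold order
  rw [card_filter]
  refine sum_congr rfl fun j _ => ?_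
  rw [h1, roots_C_mul _ (neg_ne_zero.2 (mul_ne_zero (hb j) hq)), roots_X_sub_C, Multiset.count_singleton]
  have : q⁻¹ = (β j * q)⁻¹ ↔ β j = 1 := by
    rw [inv_inj]
    constructor
    · intro h
      have h3 : (β j - 1) * q = 0 := by
        rw [sub_mul, one_mul, ← h, sub_self]
      rcases mul_eq_zero.1 h3 with h4 | h4
      · exact sub_eq_zero.1 h4
      · exact absurd h4 hq
    · intro h
      rw [h, one_mul]
  by_cases h : β j = 1
  · rw [if_pos h, if_pos (this.2 h)]
  · rw [if_neg h, if_neg (fun h' => h (this.1 h'))]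

lemma rootE {E : Type} [Field E] (σ τ : E →+* ℂ) (Q : E[X]) (q : ℕ) :
    (Q.map τ).rootMultiplicity (q : ℂ)⁻¹ = (Q.map σ).rootMultiplicity (q : ℂ)⁻¹ := by
  have h1 : ∀ τ : E →+* ℂ, Q.rootMultiplicity (q : E)⁻¹ = (Q.map τ).rootMultiplicity (q : ℂ)⁻¹ := by
    intro τ
    rw [eq_rootMultiplicity_map τ.injective]
    simp
  rw [← h1, ← h1]

/-- **Polynomials with coefficients in a field.** -/
theorem coefficients (hA : Average) : Coefficients := by
  classical
  intro κ ε hε
  obtain ⟨n₀, hn₀⟩ := hA 2 κ (ε / 2) (by positivity)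
  refine ⟨n₀, fun k _ _ h2 E _ σ Q α S N β hD hQ T hT w hw n hn hsign => ?_⟩
  have hβ := hD.2.2.2.1
  have hq0 : (Fintype.card k : ℂ) ≠ 0 := by
    have := three_le h2
    exact_mod_cast (by omega : Fintype.card k ≠ 0)
  have hroot : ∀ (c : Fin n → k) (τ : E →+* ℂ),
      ((Q (mon c)).map τ).rootMultiplicity (Fintype.card k : ℂ)⁻¹ = order (β (mon c)) := by
    intro c τ
    rw [rootE σ τ, hQ _ (mon_ne c), rootM (hβ _ (mon_ne c)).2.1 hq0]
  have hset : ∀ r : ℕ, ((Fam n S).filter fun c => ∀ τ : E →+* ℂ, ((Q (mon c)).map τ).rootMultiplicity (Fintype.card k : ℂ)⁻¹ = r) =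
      (Fam n S).filter fun c => order (β (mon c)) = r := by
    intro r
    refine filter_congr fun c _ => ?_
    constructor
    · intro h
      rw [← h σ, hroot]
    · intro h τ
      rw [hroot, h]
  have hset0 := hset 0
  have hset1 := hset 1
  obtain ⟨a1, b1⟩ := hn₀ k h2 1 zero_le_one α S N β hD T hT w hw n hn
  obtain ⟨a2, b2⟩ := hn₀ k h2 1 zero_le_one α S N β hD T hT (-w) (by rcases hw with h | h <;> rw [h] <;> norm_num) n hn
  have hV0 : (0 : ℝ) ≤ (Fam n S).card := Nat.cast_nonneg _
  -- the even case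
  have hw2 : w * w = 1 := by rcases hw with h | h <;> rw [h] <;> norm_num
  have heven : ∀ c ∈ FamS n S T w, Even (order (β (mon c))) := by
    intro c hc
    unfold FamS at hc
    rw [mem_filter] at hc
    have h3 := hsign c hc.1
    rw [hc.2, hw2] at h3
    by_contra h4
    rw [Nat.not_even_iff_odd] at h4
    rw [h4.neg_one_pow] at h3
    norm_num at h3
  have hodd : ∀ c ∈ FamS n S T (-w), Odd (order (β (mon c))) := by
    intro c hc
    unfold FamS at hc
    rw [mem_filter] at hc
    have h3 := hsign c hc.1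
    rw [hc.2, mul_neg, hw2] at h3
    by_contra h4
    rw [Nat.not_odd_iff_even] at h4
    rw [h4.neg_one_pow] at h3
    norm_num at h3
  have hge0 : ∀ c ∈ FamS n S T w, (2 : ℝ) * (1 - if order (β (mon c)) = 0 then 1 else 0) ≤ order (β (mon c)) := by
    intro c hc
    split_ifs with h
    · rw [h]
      norm_num
    · obtain ⟨r, hr⟩ := heven c hc
      have : 2 ≤ order (β (mon c)) := by omega
      have : (2 : ℝ) ≤ order (β (mon c)) := by exact_mod_cast this
      linarith
  have hge1 : ∀ c ∈ FamS n S T (-w), (3 : ℝ) - 2 * (if order (β (mon c)) = 1 then 1 else 0) ≤ order (β (mon c)) := by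
    intro c hc
    split_ifs with h
    · rw [h]
      norm_num
    · obtain ⟨r, hr⟩ := hodd c hc
      have : 3 ≤ order (β (mon c)) := by omega
      have : (3 : ℝ) ≤ order (β (mon c)) := by exact_mod_cast this
      linarith
  have c0 : ((FamS n S T w).filter fun c => order (β (mon c)) = 0).card ≤ ((Fam n S).filter fun c => order (β (mon c)) = 0).card :=
    card_le_card (filter_subset_filter _ (filter_subset _ _))
  have c1 : ((FamS n S T (-w)).filter fun c => order (β (mon c)) = 1).card ≤ ((Fam n S).filter fun c => order (β (mon c)) = 1).card :=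
    card_le_card (filter_subset_filter _ (filter_subset _ _))
  have c0' : (((FamS n S T w).filter fun c => order (β (mon c)) = 0).card : ℝ) ≤ ((Fam n S).filter fun c => order (β (mon c)) = 0).card := by
    exact_mod_cast c0
  have c1' : (((FamS n S T (-w)).filter fun c => order (β (mon c)) = 1).card : ℝ) ≤ ((Fam n S).filter fun c => order (β (mon c)) = 1).card := by
    exact_mod_cast c1
  have s0 := sum_le_sum hge0
  have s1 := sum_le_sum hge1
  have d0 : ∑ c ∈ FamS n S T w, (2 : ℝ) * (1 - if order (β (mon c)) = 0 then 1 else 0) =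
      2 * ((FamS n S T w).card - ((FamS n S T w).filter fun c => order (β (mon c)) = 0).card) := by
    rw [← mul_sum, sum_sub_distrib, sum_const, nsmul_eq_mul, mul_one, ← sum_filter, sum_const, nsmul_eq_mul, mul_one]
  have d1 : ∑ c ∈ FamS n S T (-w), ((3 : ℝ) - 2 * (if order (β (mon c)) = 1 then 1 else 0)) =
      3 * (FamS n S T (-w)).card - 2 * ((FamS n S T (-w)).filter fun c => order (β (mon c)) = 1).card := by
    rw [sum_sub_distrib, ← mul_sum, sum_const, nsmul_eq_mul, ← sum_filter, sum_const, nsmul_eq_mul, mul_one, mul_comm]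
  rw [d0] at s0
  rw [d1] at s1
  push_cast at a1 a2
  have r0 : (1 / 4 : ℝ) * (FamS n S T w).card - ε / 4 * (Fam n S).card ≤ ((Fam n S).filter fun c => order (β (mon c)) = 0).card := by
    linarith
  have r1 : (3 / 4 : ℝ) * (FamS n S T (-w)).card - ε / 4 * (Fam n S).card ≤ ((Fam n S).filter fun c => order (β (mon c)) = 1).card := by
    linarith
  rw [hset0, hset1]
  refine ⟨?_, ?_, fun hT0 => ⟨?_, ?_⟩⟩
  · nlinarith
  · nlinarith
  · have := b1 hT0
    nlinarith
  · have := b2 hT0
    nlinarith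

end Q282TW
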