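import Pool.Agent.Q282.TW.ClB

/-!
# The explicit formula for one twist
-/

set_option autoImplicit false
set_option linter.unusedSectionVars false

namespace Q282TW

open Polynomial Finset
open Pool.Agent.TH180.RT (Pd mem_Pd card_Pd_real fejer_bound)

section

variable {k : Type} [Field k] [Fintype k] [DecidableEq k] {d : ℕ}

open Classical in
/-- the number of the prime divisors of degree `m`, times `m` -/
noncomputable def ww (m : ℕ) (D : k[X]) : ℝ := m * ((Pd k m).filter fun P => P ∣ D).card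

lemma ww_nonneg (m : ℕ) (D : k[X]) : 0 ≤ ww m D := by
  unfold ww
  positivity

/-- the average of the number of prime divisors -/
lemma ww_sum (h2 : (2 : k) ≠ 0) (m n : ℕ) : ∑ c : Fin n → k, ww m (mon c) ≤ (Fintype.card k : ℝ) ^ n := by
  classical
  have hq : (0 : ℝ) < Fintype.card k := by
    have := three_le h2
    positivity
  have h1 : ∀ c : Fin n → k, ww m (mon c) = ∑ P ∈ Pd k m, if P ∣ mon c then (m : ℝ) else 0 := by
    intro c
    unfold ww
    rw [← sum_filter, sum_const, nsmul_eq_mul, mul_comm]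
  rw [sum_congr rfl fun c _ => h1 c, sum_comm]
  have h3 : ∀ P ∈ Pd k m, ∑ c : Fin n → k, (if P ∣ mon c then (m : ℝ) else 0) ≤ (m : ℝ) * ((Fintype.card k : ℝ) ^ n / (Fintype.card k : ℝ) ^ m) := by
    intro P hP
    obtain ⟨p1, p2, p3⟩ := mem_Pd.1 hP
    rw [← sum_filter, sum_const, nsmul_eq_mul, mul_comm]
    refine mul_le_mul_of_nonneg_left ?_ (Nat.cast_nonneg _)
    by_cases hmn : m ≤ n
    · rw [card_mult p1 (p3.le.trans hmn), p3]
      push_cast
      rw [le_div_iff₀ (by positivity), ← pow_add, Nat.sub_add_cancel hmn]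
    · rw [filter_false_of_mem, card_empty]
      · push_cast
        positivity
      · intro c _ hd
        have := natDegree_le_of_dvd hd (mon_ne c)
        rw [p3, mon_natDegree] at this
        omega
  refine (sum_le_card_nsmul _ _ _ h3).trans ?_
  rw [nsmul_eq_mul, ← mul_assoc]
  have h4 := card_Pd_real (k := k) m
  rw [Nat.card_eq_fintype_card] at h4
  calc ((Pd k m).card : ℝ) * m * ((Fintype.card k : ℝ) ^ n / (Fintype.card k : ℝ) ^ m) ≤
        (Fintype.card k : ℝ) ^ m * ((Fintype.card k : ℝ) ^ n / (Fintype.card k : ℝ) ^ m) :=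
        mul_le_mul_of_nonneg_right h4 (by positivity)
    _ = _ := by
      rw [mul_div_cancel₀]
      positivity

lemma div_split (m : ℕ) (hm : 1 ≤ m) (f : ℕ → ℂ) :
    ∑ j ∈ m.divisors, f j = f m + (if 2 ∣ m then f (m / 2) else 0) + ∑ j ∈ m.divisors.filter (fun j => 3 * j ≤ m), f j := by
  rw [← sum_filter_add_sum_filter_not m.divisors (fun j => 3 * j ≤ m), add_comm]
  congr 1
  by_cases h2 : 2 ∣ m
  · rw [if_pos h2]
    have h3 : m.divisors.filter (fun j => ¬ 3 * j ≤ m) = {m, m / 2} := by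
      ext j
      rw [mem_filter, Nat.mem_divisors, mem_insert, mem_singleton]
      constructor
      · rintro ⟨⟨⟨c, hc⟩, -⟩, h4⟩
        have hc3 : c < 3 := by
          by_contra h5
          have := Nat.mul_le_mul_left j (not_lt.1 h5)
          omega
        interval_cases c <;> omega
      · rintro (h | h)
        · rw [h]
          exact ⟨⟨dvd_rfl, by omega⟩, by omega⟩
        · rw [h]
          exact ⟨⟨Nat.div_dvd_of_dvd h2, by omega⟩, by omega⟩
    rw [h3, sum_pair (by omega)]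
  · rw [if_neg h2, add_zero]
    have h3 : m.divisors.filter (fun j => ¬ 3 * j ≤ m) = {m} := by
      ext j
      rw [mem_filter, Nat.mem_divisors, mem_singleton]
      constructor
      · rintro ⟨⟨⟨c, hc⟩, -⟩, h4⟩
        have hc3 : c < 3 := by
          by_contra h5
          have := Nat.mul_le_mul_left j (not_lt.1 h5)
          omega
        interval_cases c <;> omega
      · intro h
        rw [h]
        exact ⟨⟨dvd_rfl, by omega⟩, by omega⟩
    rw [h3, sum_singleton]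

lemma nine (m r : ℕ) (h : m ≤ 3 * r) : (2 / 3 : ℝ) ^ r ≤ (9 / 10) ^ m :=
  calc (2 / 3 : ℝ) ^ r ≤ (729 / 1000) ^ r := pow_le_pow_left₀ (by norm_num) (by norm_num) _
    _ = (9 / 10) ^ (3 * r) := by
      rw [pow_mul]
      norm_num
    _ ≤ _ := pow_le_pow_of_le_one (by norm_num) (by norm_num) h

/-- the second moment of the inverse roots -/
def Sec (ρ : ℝ) (κ : ℕ) (α : k[X] → Fin d → ℂ) : Prop :=
  ∀ j : ℕ, 1 ≤ j → -(∑ P ∈ Pd k j, (j : ℂ) * ∑ i, α P i ^ 2).re ≤
    ρ * (Fintype.card k : ℝ) ^ j + κ * Real.sqrt (Fintype.card k) ^ j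

/-- the error -/
noncomputable def er (d κ m : ℕ) (D : k[X]) : ℝ :=
  (Real.sqrt (Fintype.card k) ^ m)⁻¹ * (d + d * κ + d * ww m D) +
    (if 2 ∣ m then κ * (Real.sqrt (Fintype.card k) ^ (m / 2))⁻¹ + 2 * d * ((Fintype.card k : ℝ) ^ (m / 2))⁻¹ * ww (m / 2) D else 0) +
    3 / 2 * d * (9 / 10) ^ m

lemma er_nonneg (d κ m : ℕ) (D : k[X]) : 0 ≤ er d κ m D := by
  unfold er
  have h1 := ww_nonneg m D
  have h2 := ww_nonneg (m / 2) D
  split_ifs <;> positivity

/-- **The explicit formula for one twist.** -/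
theorem per (h2 : (2 : k) ≠ 0) {α : k[X] → Fin d → ℂ} (hα : ∀ P, Pr P → ∀ i, ‖α P i‖ ≤ 1)
    {S : Finset k[X]} [DecidablePred fun P : k[X] => P ∉ S] {κ : ℕ}
    (hS : dg S ≤ κ) {ρ : ℝ} (hsec : Sec ρ κ α) {D : k[X]} {N : ℕ} {β : Fin N → ℂ}
    (hβ : IsTwist α D β) (m : ℕ) (hm : 1 ≤ m) :
    (∑ j, β j ^ m).re ≤ -((Real.sqrt (Fintype.card k) ^ m)⁻¹ * (F α S m D).re) + (if 2 ∣ m then ρ else 0) + er d κ m D := by
  classical
  obtain ⟨hβ1, γ, δ, hγ, hδ, hsum⟩ := hβ
  have hs := hsum m hm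
  rw [fsum m hm, div_split m hm] at hs
  obtain ⟨s, hsdef⟩ : ∃ s : ℝ, s = Real.sqrt (Fintype.card k) := ⟨_, rfl⟩
  have hs1 : (3 / 2 : ℝ) ≤ s := hsdef ▸ sqrt_ge h2
  have hs0 : 0 < s := by linarith
  have hss : s ^ 2 = Fintype.card k := hsdef ▸ sqrt_sq
  obtain ⟨A, hA⟩ : ∃ A : ℂ, A = ∑ P ∈ Pd k m, (P.natDegree : ℂ) * ∑ i, δ P i ^ (m / P.natDegree) := ⟨_, rfl⟩
  obtain ⟨B, hB⟩ : ∃ B : ℂ, B = if 2 ∣ m then ∑ P ∈ Pd k (m / 2), (P.natDegree : ℂ) * ∑ i, δ P i ^ (m / P.natDegree) else 0 := ⟨_, rfl⟩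
  obtain ⟨R, hR⟩ : ∃ R : ℂ, R = ∑ j ∈ m.divisors.filter (fun j => 3 * j ≤ m), ∑ P ∈ Pd k j,
    (P.natDegree : ℂ) * ∑ i, δ P i ^ (m / P.natDegree) := ⟨_, rfl⟩
  rw [← hA, ← hB, ← hR] at hs
  -- the rest
  have hRb : ‖R‖ ≤ s ^ m * (3 / 2 * d * (9 / 10) ^ m) := by
    rw [hR]
    refine (rest_le h2 (fun P hP => (hδ P hP).1) m (m / 3) _ fun j hj => ?_).trans ?_
    · rw [mem_filter, Nat.mem_divisors] at hj
      obtain ⟨⟨⟨c, hc⟩, hj2⟩, hj3⟩ := hj
      have hj1 : 1 ≤ j := by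
        rcases Nat.eq_zero_or_pos j with h | h
        · rw [h] at hc
          omega
        · exact h
      exact ⟨hj1, by omega⟩
    · have e1 : (Fintype.card k : ℝ) ^ (m / 3) = s ^ m * (s⁻¹) ^ (m - 2 * (m / 3)) := by
        rw [← hss, ← pow_mul, inv_pow, eq_mul_inv_iff_mul_eq₀ (by positivity), ← pow_add]
        congr 1
        omega
      have e2 : (s⁻¹) ^ (m - 2 * (m / 3)) ≤ (9 / 10) ^ m := by
        refine (pow_le_pow_left₀ (by positivity) ?_ _).trans (nine m (m - 2 * (m / 3)) (by omega))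
        rw [inv_le_comm₀ hs0 (by norm_num)]
        norm_num
        exact hs1
      rw [e1]
      have hd : (0 : ℝ) ≤ 3 / 2 * d := by positivity
      calc 3 / 2 * (d : ℝ) * (s ^ m * s⁻¹ ^ (m - 2 * (m / 3))) = s ^ m * (3 / 2 * d * s⁻¹ ^ (m - 2 * (m / 3))) := by ring
        _ ≤ _ := mul_le_mul_of_nonneg_left (mul_le_mul_of_nonneg_left e2 hd) (by positivity)
  -- the main term
  have hdiff : ‖A - F α S m D‖ ≤ d * (κ + ww m D) := by
    have h1 : A - F α S m D = ∑ P ∈ Pd k m, ((m : ℂ) * ∑ i, δ P i - if P ∉ S then (m : ℂ) * (∑ i, α P i) * leg P D else 0) := by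
      rw [hA, F, sum_filter, ← sum_sub_distrib]
      refine sum_congr rfl fun P hP => ?_
      obtain ⟨p1, p2, p3⟩ := mem_Pd.1 hP
      rw [p3, Nat.div_self (by omega)]
      congr 2
      exact sum_congr rfl fun i _ => by rw [pow_one]
    have h3 : ∀ P ∈ Pd k m, ‖(m : ℂ) * ∑ i, δ P i - (if P ∉ S then (m : ℂ) * (∑ i, α P i) * leg P D else 0)‖ ≤
        (if P ∈ S then (m : ℝ) * d else 0) + (if P ∣ D then (m : ℝ) * d else 0) := by
      intro P hP
      obtain ⟨p1, p2, p3⟩ := mem_Pd.1 hP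
      have h4 : ‖(m : ℂ) * ∑ i, δ P i‖ ≤ m * d := by
        rw [norm_mul, Complex.norm_natCast]
        have := sum_norm_le (hδ P ⟨p1, p2⟩).1 1
        simp only [pow_one] at this
        exact mul_le_mul_of_nonneg_left this (Nat.cast_nonneg _)
      have h5 : (0 : ℝ) ≤ m * d := by positivity
      by_cases hPS : P ∈ S
      · rw [if_neg (not_not.2 hPS), if_pos hPS, sub_zero]
        split_ifs <;> linarith
      · rw [if_pos hPS, if_neg hPS]
        by_cases hPW : P ∣ D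
        · rw [if_pos hPW, leg_zero hPW]
          simp only [Int.cast_zero, mul_zero, sub_zero, zero_add]
          exact h4
        · rw [if_neg hPW]
          have h6 : ∑ i, δ P i = (∑ i, α P i) * leg P D := by
            rw [sum_mul]
            refine sum_congr rfl fun i _ => ?_
            rw [(hδ P ⟨p1, p2⟩).2 hPW i, mul_comm]
          rw [h6, mul_assoc, sub_self, norm_zero, zero_add]
    rw [h1]
    refine (norm_sum_le _ _).trans ((sum_le_sum h3).trans ?_)
    rw [sum_add_distrib, ← sum_filter, ← sum_filter, sum_const, sum_const, nsmul_eq_mul, nsmul_eq_mul]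
    have h7 : (m : ℝ) * ((Pd k m).filter fun P => P ∈ S).card ≤ κ := by exact_mod_cast (sum_mem m S).trans hS
    have h8 : ww m D = (m : ℝ) * ((Pd k m).filter fun P => P ∣ D).card := rfl
    have hd : (0 : ℝ) ≤ d := Nat.cast_nonneg _
    rw [h8]
    nlinarith
  -- the squares
  have hBb : -B.re ≤ s ^ m * (if 2 ∣ m then ρ + (κ * (s ^ (m / 2))⁻¹ + 2 * d * ((Fintype.card k : ℝ) ^ (m / 2))⁻¹ * ww (m / 2) D) else 0) := by
    by_cases hev : 2 ∣ m
    · rw [if_pos hev] at hB
      rw [if_pos hev]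
      obtain ⟨j, hj⟩ := hev
      have hj' : m / 2 = j := by omega
      have hj1 : 1 ≤ j := by omega
      rw [hj'] at hB ⊢
      have h1 : B - ∑ P ∈ Pd k j, (j : ℂ) * ∑ i, α P i ^ 2 =
          ∑ P ∈ Pd k j, (j : ℂ) * (∑ i, δ P i ^ 2 - ∑ i, α P i ^ 2) := by
        rw [hB, ← sum_sub_distrib]
        refine sum_congr rfl fun P hP => ?_
        obtain ⟨p1, p2, p3⟩ := mem_Pd.1 hP
        rw [p3, hj, Nat.mul_div_cancel _ (by omega)]
        ring
      have h3 : ∀ P ∈ Pd k j, ‖(j : ℂ) * (∑ i, δ P i ^ 2 - ∑ i, α P i ^ 2)‖ ≤ if P ∣ D then (j : ℝ) * (2 * d) else 0 := by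
        intro P hP
        obtain ⟨p1, p2, p3⟩ := mem_Pd.1 hP
        by_cases hPD : P ∣ D
        · rw [if_pos hPD, norm_mul, Complex.norm_natCast]
          refine mul_le_mul_of_nonneg_left ?_ (Nat.cast_nonneg _)
          refine (norm_sub_le _ _).trans ?_
          have := sum_norm_le (hδ P ⟨p1, p2⟩).1 2
          have := sum_norm_le (hα P ⟨p1, p2⟩) 2
          linarith
        · rw [if_neg hPD]
          have h4 : ∑ i, δ P i ^ 2 = ∑ i, α P i ^ 2 := by
            refine sum_congr rfl fun i _ => ?_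
            have h5 : (leg P D : ℂ) ^ 2 = 1 := by exact_mod_cast leg_sq hPD
            rw [(hδ P ⟨p1, p2⟩).2 hPD i, mul_pow, h5, one_mul]
          rw [h4, sub_self, mul_zero, norm_zero]
      have h4 : ‖B - ∑ P ∈ Pd k j, (j : ℂ) * ∑ i, α P i ^ 2‖ ≤ 2 * d * ww j D := by
        rw [h1]
        refine (norm_sum_le _ _).trans ((sum_le_sum h3).trans ?_)
        rw [← sum_filter, sum_const, nsmul_eq_mul]
        unfold ww
        apply le_of_eq
        ring
      have h5 := hsec j hj1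
      have h6 : -(B - ∑ P ∈ Pd k j, (j : ℂ) * ∑ i, α P i ^ 2).re ≤ 2 * d * ww j D := by
        refine le_trans ?_ h4
        rw [← Complex.neg_re]
        refine (Complex.re_le_norm _).trans ?_
        rw [norm_neg]
      rw [Complex.sub_re] at h6
      have e1 : s ^ m = (Fintype.card k : ℝ) ^ j := by rw [hj, pow_mul, hss]
      have e2 : (Fintype.card k : ℝ) ^ j = s ^ j * s ^ j := by rw [← hss, ← pow_mul, ← pow_add]; congr 1; omega
      have e3 : s ^ j ≠ 0 := by positivity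
      have e4 : (Fintype.card k : ℝ) ^ j ≠ 0 := by
        rw [e2]
        positivity
      have e5 : (Fintype.card k : ℝ) ^ j * (s ^ j)⁻¹ = s ^ j := by
        rw [e2]
        field_simp
      have e6 : (Fintype.card k : ℝ) ^ j * ((Fintype.card k : ℝ) ^ j)⁻¹ = 1 := mul_inv_cancel₀ e4
      rw [e1]
      have e7 : (Fintype.card k : ℝ) ^ j * (ρ + (κ * (s ^ j)⁻¹ + 2 * d * ((Fintype.card k : ℝ) ^ j)⁻¹ * ww j D)) =
          ρ * (Fintype.card k : ℝ) ^ j + κ * s ^ j + 2 * d * ww j D := by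
        calc _ = ρ * (Fintype.card k : ℝ) ^ j + κ * ((Fintype.card k : ℝ) ^ j * (s ^ j)⁻¹) +
            2 * d * ww j D * ((Fintype.card k : ℝ) ^ j * ((Fintype.card k : ℝ) ^ j)⁻¹) := by ring
          _ = _ := by rw [e5, e6, mul_one]
      rw [e7]
      rw [← hsdef] at h5
      linarith
    · rw [if_neg hev] at hB
      rw [if_neg hev, hB]
      simp
  have hγn : ‖∑ i, γ i ^ m‖ ≤ d := sum_norm_le hγ m
  -- real parts
  have h9 : s ^ m * (∑ j, β j ^ m).re = -(∑ i, γ i ^ m).re - A.re - B.re - R.re := by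
    have := congrArg Complex.re hs
    rw [← hsdef, Complex.neg_re, ← Complex.ofReal_pow, Complex.re_ofReal_mul] at this
    simp only [Complex.add_re] at this
    linarith
  have h10 : -(∑ i, γ i ^ m).re ≤ d := by
    refine le_trans ?_ hγn
    rw [← Complex.neg_re]
    refine (Complex.re_le_norm _).trans ?_
    rw [norm_neg]
  have h11 : -R.re ≤ s ^ m * (3 / 2 * d * (9 / 10) ^ m) := by
    refine le_trans ?_ hRb
    rw [← Complex.neg_re]
    refine (Complex.re_le_norm _).trans ?_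
    rw [norm_neg]
  have h12 : -A.re ≤ -(F α S m D).re + d * (κ + ww m D) := by
    have : -(A - F α S m D).re ≤ d * (κ + ww m D) := by
      refine le_trans ?_ hdiff
      rw [← Complex.neg_re]
      refine (Complex.re_le_norm _).trans ?_
      rw [norm_neg]
    rw [Complex.sub_re] at this
    linarith
  have hsm : 0 < s ^ m := by positivity
  have h13 : s ^ m * (∑ j, β j ^ m).re ≤ s ^ m * (-((s ^ m)⁻¹ * (F α S m D).re) + (if 2 ∣ m then ρ else 0) + er d κ m D) := by
    unfold er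
    rw [← hsdef]
    have e1 : s ^ m * (s ^ m)⁻¹ = 1 := mul_inv_cancel₀ hsm.ne'
    have e2 : s ^ m * (-((s ^ m)⁻¹ * (F α S m D).re) + (if 2 ∣ m then ρ else 0) + ((s ^ m)⁻¹ * (d + d * κ + d * ww m D) +
        (if 2 ∣ m then κ * (s ^ (m / 2))⁻¹ + 2 * d * ((Fintype.card k : ℝ) ^ (m / 2))⁻¹ * ww (m / 2) D else 0) +
        3 / 2 * d * (9 / 10) ^ m)) = (s ^ m * (s ^ m)⁻¹) * (-(F α S m D).re + (d + d * κ + d * ww m D)) +
        s ^ m * (if 2 ∣ m then ρ + (κ * (s ^ (m / 2))⁻¹ + 2 * d * ((Fintype.card k : ℝ) ^ (m / 2))⁻¹ * ww (m / 2) D) else 0) +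
        s ^ m * (3 / 2 * d * (9 / 10) ^ m) := by
      split_ifs <;> ring
    rw [e2, e1, h9]
    linarith
  have h14 := le_of_mul_le_mul_left h13 hsm
  rw [← hsdef]
  exact h14

end

end Q282TW
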