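import Mathlib

/-!
# Project TW: quadratic symbols for polynomials over a finite field. Definitions and statements

`k` is a finite field with `q` elements, of odd characteristic. `leg P A` is the Legendre symbol of `A` modulo the irreducible
polynomial `P`, and `J S A` the product of the `leg P A` over the members `P` of the finite set `S` of monic irreducible
polynomials, i.e. the Jacobi symbol modulo the squarefree polynomial with the prime factors in `S`.
-/

set_option autoImplicit false

open Polynomial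

namespace Q282TW

section

variable {k : Type} [Field k]

/-- the monic irreducible polynomials -/
def Pr (P : k[X]) : Prop := P.Monic ∧ Irreducible P

open Classical in
/-- the Legendre symbol of `A` modulo `P` -/
noncomputable def leg (P A : k[X]) : ℤ := if P ∣ A then 0 else if ∃ B : k[X], P ∣ A - B ^ 2 then 1 else -1

/-- the Jacobi symbol of `A` modulo the product of the members of `S` -/
noncomputable def J (S : Finset k[X]) (A : k[X]) : ℤ := ∏ P ∈ S, leg P A

/-- the degree of the product of the members of `S` -/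
noncomputable def dg (S : Finset k[X]) : ℕ := ∑ P ∈ S, P.natDegree

/-- the polynomial of degree less than `n` with the coefficients `c` -/
noncomputable def pol {n : ℕ} (c : Fin n → k) : k[X] := ∑ i : Fin n, C (c i) * X ^ (i : ℕ)

/-- the monic polynomial of degree `n` with the other coefficients `c` -/
noncomputable def mon {n : ℕ} (c : Fin n → k) : k[X] := X ^ n + pol c

end

/-- Poisson summation for the quadratic characters modulo squarefree monic polynomials of degree `dg S`: the Gauss sum depends
only on the degree. -/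
def S_pois : Prop := ∀ (k : Type) [Field k] [Fintype k], (2 : k) ≠ 0 →
  ∃ (G : ℕ → ℂ) (ψ : k → ℂ), (∀ m, ‖G m‖ = Real.sqrt (Fintype.card k) ^ m) ∧ (∀ c, ‖ψ c‖ = 1) ∧
    ∀ S : Finset k[X], (∀ P ∈ S, Pr P) → ∀ n < dg S,
      ∑ c : Fin n → k, (J S (mon c) : ℂ) = (Fintype.card k : ℂ) ^ n / (Fintype.card k : ℂ) ^ dg S * G (dg S) *
        ∑ c : Fin (dg S - n) → k, ψ ((pol c).coeff (dg S - n - 1)) * (J S (pol c) : ℂ)

/-- The sum of a quadratic character over the monic polynomials of a degree at least that of the modulus is zero. -/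
def S_van : Prop := ∀ (k : Type) [Field k] [Fintype k], (2 : k) ≠ 0 →
  ∀ S : Finset k[X], (∀ P ∈ S, Pr P) → S.Nonempty → ∀ n, dg S ≤ n → ∑ c : Fin n → k, (J S (mon c) : ℂ) = 0

open Classical in
/-- Inclusion and exclusion for polynomials prime to the members of `S`. -/
def S_cop : Prop := ∀ (k : Type) [Field k] [Fintype k], ∀ S : Finset k[X], (∀ P ∈ S, Pr P) → ∀ (n : ℕ) (h : k[X] → ℂ),
  ∑ c : Fin n → k, (if ∀ P ∈ S, ¬ P ∣ mon c then h (mon c) else 0) =
    ∑ T ∈ S.powerset.filter (fun T => dg T ≤ n), (-1) ^ T.card * ∑ b : Fin (n - dg T) → k, h ((∏ P ∈ T, P) * mon b)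

open Classical in
/-- The squarefree polynomials by the Möbius function. -/
def S_sqf : Prop := ∀ (k : Type) [Field k] [Fintype k], ∃ μ : k[X] → ℂ, (∀ A, ‖μ A‖ ≤ 1) ∧ ∀ (n : ℕ) (h : k[X] → ℂ),
  ∑ c : Fin n → k, (if Squarefree (mon c) then h (mon c) else 0) =
    ∑ a ∈ Finset.range (n / 2 + 1), ∑ e : Fin a → k, μ (mon e) * ∑ b : Fin (n - 2 * a) → k, h (mon e ^ 2 * mon b)

open Classical in
/-- The squarefree polynomials prime to `S` are a positive proportion. -/
def S_cnt : Prop := ∀ β : ℕ, ∃ (c : ℝ) (n₀ : ℕ), 0 < c ∧ ∀ (k : Type) [Field k] [Fintype k], (2 : k) ≠ 0 →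
  ∀ S : Finset k[X], (∀ P ∈ S, Pr P) → dg S ≤ β → ∀ n, n₀ ≤ n →
    c * (Fintype.card k : ℝ) ^ n ≤
      ((Finset.univ.filter fun c : Fin n → k => Squarefree (mon c) ∧ ∀ P ∈ S, ¬ P ∣ mon c).card : ℝ)

end Q282TW
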