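import Pool.Agent.Q282.TW.Defs

/-!
# Twists of `L`-functions over `k(T)` by quadratic characters: the statement
-/

set_option autoImplicit false

open Polynomial

namespace Q282TW

section

variable {k : Type} [Field k] [Fintype k]

open Classical in
/-- the coefficient vectors of the squarefree monic polynomials of degree `n` prime to the members of `S` -/
noncomputable def Fam (n : ℕ) (S : Finset k[X]) : Finset (Fin n → k) :=
  Finset.univ.filter fun c => Squarefree (mon c) ∧ ∀ P ∈ S, ¬ P ∣ mon c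

open Classical in
/-- those with the symbol `w` modulo the product of the members of `T` -/
noncomputable def FamS (n : ℕ) (S T : Finset k[X]) (w : ℤ) : Finset (Fin n → k) := (Fam n S).filter fun c => J T (mon c) = w

/-- The hypotheses: `α P i` is of absolute value at most one; `S` consists of monic irreducible polynomials and has degree at
most `κ`; for each nonzero `D` the twist by the square root of `D` is a polynomial in `q ^ (-s)` of degree
`N D ≤ κ + d * deg D` with the normalised inverse zeros `β D j`, all of absolute value one; and the sum of the squares of the `α P i`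
over the primes of degree `j` is at least `-(ρ q ^ j + κ q ^ (j / 2)) / j`. -/
def Data (κ : ℕ) {d : ℕ} (ρ : ℝ) (α : k[X] → Fin d → ℂ) (S : Finset k[X]) (N : k[X] → ℕ) (β : (D : k[X]) → Fin (N D) → ℂ) : Prop :=
  (∀ P, Pr P → ∀ i, ‖α P i‖ ≤ 1) ∧ (∀ P ∈ S, Pr P) ∧ dg S ≤ κ ∧
    (∀ D, D ≠ 0 → N D ≤ κ + d * D.natDegree ∧ IsTwist α D (β D)) ∧
    ∀ j : ℕ, 1 ≤ j → -(∑ᶠ P ∈ {P : k[X] | Pr P ∧ P.natDegree = j}, (j : ℂ) * ∑ i, α P i ^ 2).re ≤
      ρ * (Fintype.card k : ℝ) ^ j + κ * Real.sqrt (Fintype.card k) ^ j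

end

/-- The average order of vanishing at `s = 1` of the twists with a given value `w` of the symbol modulo `T` is at most
`(d + ρ) / 2 + ε`, and if `T` is not empty then each value `1`, `-1` occurs for the proportion `1 / 2 - ε` of the twists at least. -/
def Average : Prop := ∀ (d κ : ℕ) (ε : ℝ), 0 < ε → ∃ n₀ : ℕ, ∀ (k : Type) [Field k] [Fintype k], (2 : k) ≠ 0 →
  ∀ (ρ : ℝ), 0 ≤ ρ → ∀ (α : k[X] → Fin d → ℂ) (S : Finset k[X]) (N : k[X] → ℕ) (β : (D : k[X]) → Fin (N D) → ℂ),
    Data κ ρ α S N β → ∀ T ⊆ S, ∀ w : ℤ, (w = 1 ∨ w = -1) → ∀ n, n₀ ≤ n →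
      ∑ c ∈ FamS n S T w, (order (β (mon c)) : ℝ) ≤ (d + ρ) / 2 * (FamS n S T w).card + ε * (Fam n S).card ∧
        (T.Nonempty → (1 / 2 - ε) * (Fam n S).card ≤ (FamS n S T w).card)

open Classical in
/-- Let `d = 2`, `ρ = 1`, let `Q D` be a polynomial over a field `E` and `σ` an embedding of `E` into the complex numbers which maps
`Q D` to the twist by `D`, `∏ (1 - β D j q X)`, and suppose that the sign `(-1) ^ order` of the functional equation of the twist by a
member `D` of the family is `w` times the symbol of `D` modulo `T`. Then for all embeddings `τ` the polynomials `τ(Q D)` do not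
vanish at `1 / q` for a quarter of the members `D` with sign `1`, up to the proportion `ε`, and for all embeddings they have a
simple zero there for three quarters of the members with sign `-1`; so if `T` is not empty, for the proportions `1 / 8 - ε`
and `3 / 8 - ε` of all members. -/
def Coefficients : Prop := ∀ (κ : ℕ) (ε : ℝ), 0 < ε → ∃ n₀ : ℕ, ∀ (k : Type) [Field k] [Fintype k], (2 : k) ≠ 0 →
  ∀ (E : Type) [Field E] (σ : E →+* ℂ) (Q : k[X] → E[X]) (α : k[X] → Fin 2 → ℂ) (S : Finset k[X]) (N : k[X] → ℕ)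
    (β : (D : k[X]) → Fin (N D) → ℂ), Data κ 1 α S N β →
    (∀ D, D ≠ 0 → (Q D).map σ = ∏ j, (1 - C (β D j * Fintype.card k) * X)) →
    ∀ T ⊆ S, ∀ w : ℤ, (w = 1 ∨ w = -1) → ∀ n, n₀ ≤ n → (∀ c ∈ Fam n S, (-1) ^ order (β (mon c)) = w * J T (mon c)) →
      ((1 / 4 : ℝ) * (FamS n S T w).card - ε * (Fam n S).card ≤
        ((Fam n S).filter fun c => ∀ τ : E →+* ℂ, ((Q (mon c)).map τ).rootMultiplicity (Fintype.card k : ℂ)⁻¹ = 0).card) ∧
      ((3 / 4 : ℝ) * (FamS n S T (-w)).card - ε * (Fam n S).card ≤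
        ((Fam n S).filter fun c => ∀ τ : E →+* ℂ, ((Q (mon c)).map τ).rootMultiplicity (Fintype.card k : ℂ)⁻¹ = 1).card) ∧
      (T.Nonempty →
        (1 / 8 - ε) * (Fam n S).card ≤
          (((Fam n S).filter fun c => ∀ τ : E →+* ℂ, ((Q (mon c)).map τ).rootMultiplicity (Fintype.card k : ℂ)⁻¹ = 0).card : ℝ) ∧
        (3 / 8 - ε) * (Fam n S).card ≤
          (((Fam n S).filter fun c => ∀ τ : E →+* ℂ, ((Q (mon c)).map τ).rootMultiplicity (Fintype.card k : ℂ)⁻¹ = 1).card : ℝ))

/-- The statement. -/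
def Statement : Prop := Average ∧ Coefficients

end Q282TW
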